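import Mathlib

/-!
# Stable spaces of odd functions on sets with separated signs
-/

set_option autoImplicit false
set_option linter.unusedSectionVars false
set_option linter.unusedVariables false

namespace Pool.Agent.T2H38.SS

open Finset

section core

variable {G : Type} [Group G] {I : Type} [Fintype I] {X : I → Type} [∀ i, Fintype (X i)]
  [∀ i, MulAction G (X i)] {bar : ∀ i, X i → X i}

/-- The action of the group on the functions. -/
def shift (g : G) (f : ∀ i, X i → ℝ) : ∀ i, X i → ℝ := fun i x => f i (g⁻¹ • x)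

/-- `g` operates on `X i` by signs. -/
def Signs (bar : ∀ i, X i → X i) (i : I) (g : G) : Prop :=
  ∀ z : X i, g • z = z ∨ g • z = bar i z

theorem inv_signs (hb : ∀ i x, bar i (bar i x) = x)
    (hc : ∀ i (g : G) x, g • bar i x = bar i (g • x)) {i : I} {g : G}
    (hg : Signs bar i g) (z : X i) : g⁻¹ • z = g • z := by
  rw [inv_smul_eq_iff]
  rcases hg z with h | h
  · rw [h, h]
  · rw [h, hc, h, hb]

/-- **Stable spaces of odd functions on sets with separated signs.** -/
theorem core (hb : ∀ i x, bar i (bar i x) = x) (hne : ∀ i x, bar i x ≠ x)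
    (hc : ∀ i (g : G) x, g • bar i x = bar i (g • x)) (ht : ∀ i (x y : X i), ∃ g : G, g • x = y)
    (hsep : ∀ i (x y : X i), y ≠ x → y ≠ bar i x →
      ∃ g : G, Signs bar i g ∧ g • x = x ∧ g • y = bar i y)
    (hcompat : ∀ i k, (∀ g : G, (∀ z : X i, g • z = z) ↔ ∀ z : X k, g • z = z) →
      ∀ g : G, Signs bar i g → Signs bar k g)
    (R : Submodule ℝ (∀ i, X i → ℝ)) (hodd : ∀ f ∈ R, ∀ i x, f i (bar i x) = - f i x)
    (hG : ∀ f ∈ R, ∀ g : G, shift g f ∈ R)
    (hlin : ∀ (S : Finset I) (ψ : ∀ i : I, i ∈ S → X i),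
      (∀ i (hi : i ∈ S) k (hk : k ∈ S) (g : G), g • ψ i hi = ψ i hi ↔ g • ψ k hk = ψ k hk) →
      ∀ f ∈ R, (∀ i x, f i x ≠ 0 → ∃ hi : i ∈ S, x = ψ i hi ∨ x = bar i (ψ i hi)) → f = 0)
    (f : ∀ i, X i → ℝ) (hf : f ∈ R) : f = 0 := by
  classical
  by_contra hf0
  -- a function with minimal support
  let supp : (∀ i, X i → ℝ) → Finset I := fun h => univ.filter fun i => h i ≠ 0
  have hex : ∃ n : ℕ, ∃ h ∈ R, h ≠ 0 ∧ (supp h).card = n := ⟨_, f, hf, hf0, rfl⟩
  obtain ⟨f₀, hf₀, hf₀0, hcard⟩ := Nat.find_spec hex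
  have hmin' : ∀ h ∈ R, h ≠ 0 → (supp f₀).card ≤ (supp h).card := fun h hh h0 => by
    rw [hcard]
    exact Nat.find_min' hex ⟨h, hh, h0, rfl⟩
  set S : Finset I := supp f₀ with hS
  -- the functions supported in `S`
  let RS : Submodule ℝ (∀ i, X i → ℝ) :=
    { carrier := {h | h ∈ R ∧ ∀ i, i ∉ S → h i = 0}
      add_mem' := by
        rintro a b ⟨ha, ha'⟩ ⟨hb, hb'⟩
        refine ⟨R.add_mem ha hb, fun i hi => ?_⟩
        rw [Pi.add_apply, ha' i hi, hb' i hi, add_zero]
      zero_mem' := ⟨R.zero_mem, fun i _ => rfl⟩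
      smul_mem' := by
        rintro c a ⟨ha, ha'⟩
        refine ⟨R.smul_mem c ha, fun i hi => ?_⟩
        rw [Pi.smul_apply, ha' i hi, smul_zero] }
  have hRS : ∀ h ∈ RS, h ∈ R := fun h hh => hh.1
  have hmin : ∀ h ∈ RS, ∀ i ∈ S, h i = 0 → h = 0 := by
    intro h hh i hi h0
    by_contra hne
    have h1 : supp h ⊆ S.erase i := by
      intro k hk
      have h2 : h k ≠ 0 := (mem_filter.1 hk).2
      refine mem_erase.2 ⟨?_, ?_⟩
      · rintro rfl
        exact h2 h0
      · by_contra h3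
        exact h2 (hh.2 k h3)
    have h2 := (hmin' h hh.1 hne).trans (card_le_card h1)
    rw [card_erase_of_mem hi] at h2
    have h3 : 0 < S.card := card_pos.2 ⟨i, hi⟩
    omega
  have huniq : ∀ h ∈ RS, ∀ h' ∈ RS, ∀ i ∈ S, h i = h' i → h = h' := by
    intro h hh h' hh' i hi he
    rw [← sub_eq_zero]
    refine hmin _ (RS.sub_mem hh hh') i hi ?_
    rw [Pi.sub_apply, he, sub_self]
  have hshift : ∀ h ∈ RS, ∀ g : G, shift g h ∈ RS := by
    intro h hh g
    refine ⟨hG h hh.1 g, fun i hi => ?_⟩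
    funext x
    change h i (g⁻¹ • x) = 0
    rw [hh.2 i hi]
    rfl
  have hf₀S : f₀ ∈ RS := ⟨hf₀, fun i hi => by
    by_contra h
    exact hi (mem_filter.2 ⟨mem_univ _, h⟩)⟩
  -- isolating an element
  have hiso' : ∀ i ∈ S, ∀ x : X i, ∀ T : Finset (X i), x ∉ T → bar i x ∉ T →
      ∃ h ∈ RS, h i x ≠ 0 ∧ ∀ y ∈ T, h i y = 0 := by
    intro i hi x T
    induction T using Finset.induction_on with
    | empty =>
      intro _ _
      have h1 : f₀ i ≠ 0 := (mem_filter.1 hi).2
      obtain ⟨x₀, hx₀⟩ := Function.ne_iff.1 h1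
      obtain ⟨g, hg⟩ := ht i x₀ x
      refine ⟨shift g f₀, hshift _ hf₀S g, ?_, fun y hy => absurd hy (notMem_empty y)⟩
      change f₀ i (g⁻¹ • x) ≠ 0
      rw [← hg, inv_smul_smul]
      exact hx₀
    | insert y T hy ih =>
      intro h1 h2
      rw [mem_insert, not_or] at h1 h2
      obtain ⟨h, hh, hx, hT⟩ := ih h1.2 h2.2
      obtain ⟨g, hg, hgx, hgy⟩ := hsep i x y (Ne.symm h1.1) (Ne.symm h2.1)
      have hinv := inv_signs hb hc hg
      refine ⟨h + shift g h, RS.add_mem hh (hshift h hh g), ?_, ?_⟩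
      · have e1 : (h + shift g h) i x = h i x + h i (g⁻¹ • x) := rfl
        rw [e1, hinv, hgx, ← two_mul]
        exact mul_ne_zero two_ne_zero hx
      · intro z hz
        have e1 : (h + shift g h) i z = h i z + h i (g⁻¹ • z) := rfl
        rw [e1, hinv]
        rcases mem_insert.1 hz with rfl | hz
        · rw [hgy, hodd h hh.1, add_neg_cancel]
        · rcases hg z with h3 | h3
          · rw [h3, hT z hz, add_zero]
          · rw [h3, hodd h hh.1, hT z hz, neg_zero, add_zero]
  have hiso : ∀ i ∈ S, ∀ x : X i, ∃ h ∈ RS, h i x ≠ 0 ∧ ∀ y, y ≠ x → y ≠ bar i x → h i y = 0 := by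
    intro i hi x
    obtain ⟨h, hh, h1, h2⟩ := hiso' i hi x (univ.filter fun y => y ≠ x ∧ y ≠ bar i x)
      (fun h => (mem_filter.1 h).2.1 rfl) (fun h => (mem_filter.1 h).2.2 rfl)
    exact ⟨h, hh, h1, fun y hy1 hy2 => h2 y (mem_filter.2 ⟨mem_univ _, hy1, hy2⟩)⟩
  -- an element of the support in the pair
  have hpair : ∀ h ∈ R, ∀ i (x y : X i), h i x ≠ 0 → (∀ z, z ≠ x → z ≠ bar i x → h i z = 0) →
      h i y = h i x → y = x := by
    intro h hh i x y hx hz he
    by_contra hyx
    by_cases hyb : y = bar i x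
    · rw [hyb, hodd h hh] at he
      apply hx
      linarith
    · rw [hz y hyx hyb] at he
      exact hx he.symm
  -- the kernels are the same
  have hker : ∀ i ∈ S, ∀ k ∈ S, ∀ g : G, (∀ z : X i, g • z = z) → ∀ z : X k, g • z = z := by
    intro i hi k hk g hg x
    obtain ⟨h, hh, hx, hz⟩ := hiso k hk x
    have h1 : shift g h = h := by
      refine huniq _ (hshift h hh g) _ hh i hi ?_
      funext z
      change h i (g⁻¹ • z) = h i z
      have h2 : g⁻¹ • z = z := by
        rw [inv_smul_eq_iff, hg]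
      rw [h2]
    apply hpair h hh.1 k x (g • x) hx hz
    have h2 := congrFun (congrFun h1 k) (g • x)
    change h k (g⁻¹ • g • x) = _ at h2
    rw [inv_smul_smul] at h2
    exact h2.symm
  have hsigns : ∀ i ∈ S, ∀ k ∈ S, ∀ g : G, Signs bar i g → Signs bar k g := fun i hi k hk =>
    hcompat i k fun g => ⟨hker i hi k hk g, hker k hk i hi g⟩
  -- the special function
  obtain ⟨i₀, hi₀⟩ : ∃ i, i ∈ S := by
    obtain ⟨i, hi⟩ := Function.ne_iff.1 hf₀0
    exact ⟨i, mem_filter.2 ⟨mem_univ _, hi⟩⟩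
  obtain ⟨x₀, -⟩ := Function.ne_iff.1 ((mem_filter.1 hi₀).2)
  obtain ⟨h, hh, hx₀, hz₀⟩ := hiso i₀ hi₀ x₀
  have hh0 : h ≠ 0 := by
    rintro rfl
    exact hx₀ rfl
  have hex2 : ∀ k (hk : k ∈ S), ∃ y : X k, h k y ≠ 0 := by
    intro k hk
    by_contra hcon
    push Not at hcon
    exact hh0 (hmin h hh k hk (funext hcon))
  -- the functions `shift g h` for the signs `g`
  have hone : ∀ k ∈ S, ∀ y y' : X k, h k y ≠ 0 → h k y' ≠ 0 → y' = y ∨ y' = bar k y := by
    intro k hk y y' hy hy'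
    by_contra hcon
    rw [not_or] at hcon
    obtain ⟨g, hg, hgy, hgy'⟩ := hsep k y y' hcon.1 hcon.2
    have hg0 := hsigns k hk i₀ hi₀ g hg
    have hinv := inv_signs hb hc hg
    have hinv0 := inv_signs hb hc hg0
    rcases hg0 x₀ with h1 | h1
    · have h2 : shift g h = h := by
        refine huniq _ (hshift h hh g) _ hh i₀ hi₀ ?_
        funext z
        change h i₀ (g⁻¹ • z) = h i₀ z
        rw [hinv0]
        by_cases hz1 : z = x₀
        · rw [hz1, h1]
        · by_cases hz2 : z = bar i₀ x₀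
          · rw [hz2, hc, h1]
          · rcases hg0 z with h3 | h3
            · rw [h3]
            · rw [h3, hodd h hh.1, hz₀ z hz1 hz2, neg_zero]
      have h3 := congrFun (congrFun h2 k) y'
      change h k (g⁻¹ • y') = h k y' at h3
      rw [hinv, hgy', hodd h hh.1] at h3
      apply hy'
      linarith
    · have h2 : shift g h = - h := by
        refine huniq _ (hshift h hh g) _ (RS.neg_mem hh) i₀ hi₀ ?_
        funext z
        change h i₀ (g⁻¹ • z) = - h i₀ z
        rw [hinv0]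
        by_cases hz1 : z = x₀
        · rw [hz1, h1, hodd h hh.1]
        · by_cases hz2 : z = bar i₀ x₀
          · rw [hz2, hc, h1, hodd h hh.1 i₀ (bar i₀ x₀)]
          · rcases hg0 z with h3 | h3
            · rw [h3, hz₀ z hz1 hz2, neg_zero]
            · rw [h3, hodd h hh.1]
      have h3 := congrFun (congrFun h2 k) y
      change h k (g⁻¹ • y) = - h k y at h3
      rw [hinv, hgy] at h3
      apply hy
      linarith
  choose ψ hψ using hex2
  have hsuppψ : ∀ k (hk : k ∈ S) z, z ≠ ψ k hk → z ≠ bar k (ψ k hk) → h k z = 0 := by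
    intro k hk z h1 h2
    by_contra h3
    rcases hone k hk (ψ k hk) z (hψ k hk) h3 with h4 | h4
    · exact h1 h4
    · exact h2 h4
  -- an element that fixes one of the `ψ` fixes the function
  have hfix : ∀ k (hk : k ∈ S) (g : G), g • ψ k hk = ψ k hk → shift g h = h := by
    intro k hk g hg
    refine huniq _ (hshift h hh g) _ hh k hk ?_
    funext z
    change h k (g⁻¹ • z) = h k z
    have hg' : g⁻¹ • ψ k hk = ψ k hk := by
      rw [inv_smul_eq_iff, hg]
    by_cases hz1 : z = ψ k hk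
    · rw [hz1, hg']
    · by_cases hz2 : z = bar k (ψ k hk)
      · rw [hz2, hc, hg']
      · rw [hsuppψ k hk z hz1 hz2]
        apply hsuppψ k hk
        · intro h5
          apply hz1
          rw [inv_smul_eq_iff, hg] at h5
          exact h5
        · intro h5
          apply hz2
          rw [inv_smul_eq_iff, hc, hg] at h5
          exact h5
  have hstab : ∀ k (hk : k ∈ S) l (hl : l ∈ S) (g : G), g • ψ k hk = ψ k hk →
      g • ψ l hl = ψ l hl := by
    intro k hk l hl g hg
    apply hpair h hh.1 l (ψ l hl) _ (hψ l hl) (hsuppψ l hl)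
    have h2 := congrFun (congrFun (hfix k hk g hg) l) (g • ψ l hl)
    change h l (g⁻¹ • g • ψ l hl) = _ at h2
    rw [inv_smul_smul] at h2
    exact h2.symm
  apply hh0
  refine hlin S ψ (fun i hi k hk g => ⟨hstab i hi k hk g, hstab k hk i hi g⟩) h hh.1 ?_
  intro i x hx
  have hi : i ∈ S := by
    by_contra hi
    apply hx
    rw [hh.2 i hi]
    rfl
  exact ⟨hi, hone i hi (ψ i hi) x (hψ i hi) hx⟩

end core

end Pool.Agent.T2H38.SS
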