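import Mathlib
import Pool.Agent.T2H38.SS.Core
import Pool.Agent.TH170.MF.Count

/-!
# Stable spaces of odd functions on sets some of which have separated signs
-/

set_option autoImplicit false
set_option linter.unusedSectionVars false
set_option linter.unusedVariables false

namespace Pool.Agent.T2H38.SS

open Finset

section core

variable {G : Type} [Group G] {I : Type} [Fintype I] {X : I → Type} [∀ i, Fintype (X i)]
  [∀ i, MulAction G (X i)] {bar : ∀ i, X i → X i}

/-- Linearly independent odd functions. -/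
theorem card_le_of_isolating (hb : ∀ i x, bar i (bar i x) = x) (hne : ∀ i x, bar i x ≠ x)
    (i k : I) (V : Submodule ℝ (∀ i, X i → ℝ))
    (hodd : ∀ f ∈ V, ∀ i x, f i (bar i x) = - f i x)
    (hki : ∀ f ∈ V, f k = 0 → f i = 0)
    (hiso : ∀ x : X i, ∃ h ∈ V, h i x ≠ 0 ∧ ∀ y, y ≠ x → y ≠ bar i x → h i y = 0) :
    Fintype.card (X i) ≤ Fintype.card (X k) := by
  classical
  obtain ⟨T, hT⟩ := TH170.MF.exists_transversal (hb i) (hne i)
  obtain ⟨T', hT'⟩ := TH170.MF.exists_transversal (hb k) (hne k)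
  choose h hh hx hz using hiso
  have hlin : LinearIndependent ℝ (fun (x : T) (y : T') => h x.1 k y.1) := by
    rw [Fintype.linearIndependent_iff]
    intro c hc
    let f : ∀ i, X i → ℝ := ∑ x : T, c x • h x.1
    have hf : f ∈ V := V.sum_mem fun x _ => V.smul_mem _ (hh x.1)
    have hfe : ∀ (l : I) (y : X l), f l y = ∑ x : T, c x * h x.1 l y := by
      intro l y
      simp only [f, Finset.sum_apply, Pi.smul_apply, smul_eq_mul]
    have h1 : ∀ y ∈ T', f k y = 0 := by
      intro y hy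
      have h2 := congrFun hc ⟨y, hy⟩
      rw [Finset.sum_apply] at h2
      rw [hfe]
      exact h2
    have h2 : f k = 0 := by
      funext y
      change f k y = 0
      by_cases h3 : y ∈ T'
      · exact h1 y h3
      · have h5 : bar k y ∈ T' := by
          rw [hT', hb]
          exact h3
        have h4 := h1 _ h5
        rw [hodd f hf] at h4
        linarith
    have h3 := hki f hf h2
    rintro ⟨y, hy⟩
    have h4 := congrFun h3 y
    rw [hfe, sum_eq_single ⟨y, hy⟩] at h4
    · exact (mul_eq_zero.1 h4).resolve_right (hx y)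
    · rintro ⟨x, hxT⟩ _ hne'
      have h5 : y ≠ x := fun h => hne' (Subtype.ext h.symm)
      rw [hz x y h5, mul_zero]
      intro h6
      rw [h6] at hy
      exact (hT x).1 hxT hy
    · intro h5
      exact absurd (mem_univ _) h5
  have h1 := hlin.fintype_card_le_finrank
  rw [Module.finrank_fintype_fun_eq_card, Fintype.card_coe, Fintype.card_coe] at h1
  rw [TH170.MF.card_transversal (hb i) hT, TH170.MF.card_transversal (hb k) hT']
  omega

/-- **Stable spaces of odd functions on sets some of which have separated signs.** -/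
theorem core2 (A : Set I) (hb : ∀ i x, bar i (bar i x) = x) (hne : ∀ i x, bar i x ≠ x)
    (hc : ∀ i (g : G) x, g • bar i x = bar i (g • x)) (ht : ∀ i (x y : X i), ∃ g : G, g • x = y)
    (hsep : ∀ i ∈ A, ∀ (x y : X i), y ≠ x → y ≠ bar i x →
      ∃ g : G, Signs bar i g ∧ g • x = x ∧ g • y = bar i y)
    (hdec : ∀ i ∈ A, ∀ k ∉ A, (∃ g : G, (∀ z : X k, g • z = z) ∧ ¬ ∀ z : X i, g • z = z) ∨
      Fintype.card (X k) < Fintype.card (X i))
    (hcompat : ∀ i ∈ A, ∀ k ∈ A, (∀ g : G, (∀ z : X i, g • z = z) ↔ ∀ z : X k, g • z = z) →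
      ∀ g : G, Signs bar i g → Signs bar k g)
    (R : Submodule ℝ (∀ i, X i → ℝ)) (hodd : ∀ f ∈ R, ∀ i x, f i (bar i x) = - f i x)
    (hG : ∀ f ∈ R, ∀ g : G, shift g f ∈ R)
    (hlin : ∀ (S : Finset I) (ψ : ∀ i : I, i ∈ S → X i), (∀ i ∈ S, i ∈ A) →
      (∀ i (hi : i ∈ S) k (hk : k ∈ S) (g : G), g • ψ i hi = ψ i hi ↔ g • ψ k hk = ψ k hk) →
      ∀ f ∈ R, (∀ i x, f i x ≠ 0 → ∃ hi : i ∈ S, x = ψ i hi ∨ x = bar i (ψ i hi)) → f = 0)
    (f : ∀ i, X i → ℝ) (hf : f ∈ R) : ∀ i ∈ A, f i = 0 := by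
  classical
  by_contra hf0
  -- a function with minimal support
  let supp : (∀ i, X i → ℝ) → Finset I := fun h => univ.filter fun i => h i ≠ 0
  have hex : ∃ n : ℕ, ∃ h ∈ R, (¬ ∀ i ∈ A, h i = 0) ∧ (supp h).card = n := ⟨_, f, hf, hf0, rfl⟩
  obtain ⟨f₀, hf₀, hf₀0, hcard⟩ := Nat.find_spec hex
  have hmin' : ∀ h ∈ R, (¬ ∀ i ∈ A, h i = 0) → (supp f₀).card ≤ (supp h).card := fun h hh h0 => by
    rw [hcard]
    exact Nat.find_min' hex ⟨h, hh, h0, rfl⟩
  set S : Finset I := supp f₀ with hS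
  -- the functions supported in `S`
  let RS : Submodule ℝ (∀ i, X i → ℝ) :=
    { carrier := {h | h ∈ R ∧ ∀ i, i ∉ S → h i = 0}
      add_mem' := by
        rintro a b ⟨ha, ha'⟩ ⟨hb, hb'⟩
        refine ⟨R.add_mem ha hb, fun i hi => ?_⟩
        rw [Pi.add_apply, ha' i hi, hb' i hi, add_zero]
      zero_mem' := ⟨R.zero_mem, fun i _ => rfl⟩
      smul_mem' := by
        rintro c a ⟨ha, ha'⟩
        refine ⟨R.smul_mem c ha, fun i hi => ?_⟩
        rw [Pi.smul_apply, ha' i hi, smul_zero] }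
  have hRS : ∀ h ∈ RS, h ∈ R := fun h hh => hh.1
  have hmin₀ : ∀ h ∈ RS, ∀ i ∈ S, h i = 0 → ∀ l ∈ A, h l = 0 := by
    intro h hh i hi h0
    by_contra hne
    have h1 : supp h ⊆ S.erase i := by
      intro k hk
      have h2 : h k ≠ 0 := (mem_filter.1 hk).2
      refine mem_erase.2 ⟨?_, ?_⟩
      · rintro rfl
        exact h2 h0
      · by_contra h3
        exact h2 (hh.2 k h3)
    have h2 := (hmin' h hh.1 hne).trans (card_le_card h1)
    rw [card_erase_of_mem hi] at h2
    have h3 : 0 < S.card := card_pos.2 ⟨i, hi⟩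
    omega
  have hshift : ∀ h ∈ RS, ∀ g : G, shift g h ∈ RS := by
    intro h hh g
    refine ⟨hG h hh.1 g, fun i hi => ?_⟩
    funext x
    change h i (g⁻¹ • x) = 0
    rw [hh.2 i hi]
    rfl
  have hf₀S : f₀ ∈ RS := ⟨hf₀, fun i hi => by
    by_contra h
    exact hi (mem_filter.2 ⟨mem_univ _, h⟩)⟩
  -- isolating an element
  have hiso' : ∀ i ∈ S, i ∈ A → ∀ x : X i, ∀ T : Finset (X i), x ∉ T → bar i x ∉ T →
      ∃ h ∈ RS, h i x ≠ 0 ∧ ∀ y ∈ T, h i y = 0 := by
    intro i hi hiA x T
    induction T using Finset.induction_on with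
    | empty =>
      intro _ _
      have h1 : f₀ i ≠ 0 := (mem_filter.1 hi).2
      obtain ⟨x₀, hx₀⟩ := Function.ne_iff.1 h1
      obtain ⟨g, hg⟩ := ht i x₀ x
      refine ⟨shift g f₀, hshift _ hf₀S g, ?_, fun y hy => absurd hy (notMem_empty y)⟩
      change f₀ i (g⁻¹ • x) ≠ 0
      rw [← hg, inv_smul_smul]
      exact hx₀
    | insert y T hy ih =>
      intro h1 h2
      rw [mem_insert, not_or] at h1 h2
      obtain ⟨h, hh, hx, hT⟩ := ih h1.2 h2.2
      obtain ⟨g, hg, hgx, hgy⟩ := hsep i hiA x y (Ne.symm h1.1) (Ne.symm h2.1)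
      have hinv := inv_signs hb hc hg
      refine ⟨h + shift g h, RS.add_mem hh (hshift h hh g), ?_, ?_⟩
      · have e1 : (h + shift g h) i x = h i x + h i (g⁻¹ • x) := rfl
        rw [e1, hinv, hgx, ← two_mul]
        exact mul_ne_zero two_ne_zero hx
      · intro z hz
        have e1 : (h + shift g h) i z = h i z + h i (g⁻¹ • z) := rfl
        rw [e1, hinv]
        rcases mem_insert.1 hz with rfl | hz
        · rw [hgy, hodd h hh.1, add_neg_cancel]
        · rcases hg z with h3 | h3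
          · rw [h3, hT z hz, add_zero]
          · rw [h3, hodd h hh.1, hT z hz, neg_zero, add_zero]
  have hiso : ∀ i ∈ S, i ∈ A → ∀ x : X i, ∃ h ∈ RS, h i x ≠ 0 ∧ ∀ y, y ≠ x → y ≠ bar i x → h i y = 0 := by
    intro i hi hiA x
    obtain ⟨h, hh, h1, h2⟩ := hiso' i hi hiA x (univ.filter fun y => y ≠ x ∧ y ≠ bar i x)
      (fun h => (mem_filter.1 h).2.1 rfl) (fun h => (mem_filter.1 h).2.2 rfl)
    exact ⟨h, hh, h1, fun y hy1 hy2 => h2 y (mem_filter.2 ⟨mem_univ _, hy1, hy2⟩)⟩
  -- an element of the support in the pair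
  have hpair : ∀ h ∈ R, ∀ i (x y : X i), h i x ≠ 0 → (∀ z, z ≠ x → z ≠ bar i x → h i z = 0) →
      h i y = h i x → y = x := by
    intro h hh i x y hx hz he
    by_contra hyx
    by_cases hyb : y = bar i x
    · rw [hyb, hodd h hh] at he
      apply hx
      linarith
    · rw [hz y hyx hyb] at he
      exact hx he.symm
  -- the support consists of sets with separated signs
  obtain ⟨i₁, hi₁A, hi₁⟩ : ∃ i ∈ A, f₀ i ≠ 0 := by
    by_contra hcon
    push Not at hcon
    exact hf₀0 hcon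
  have hi₁S : i₁ ∈ S := mem_filter.2 ⟨mem_univ _, hi₁⟩
  have hSA : ∀ i ∈ S, i ∈ A := by
    intro k hk
    by_contra hkA
    rcases hdec i₁ hi₁A k hkA with ⟨g, hg1, hg2⟩ | hcard
    · apply hg2
      intro x
      obtain ⟨h, hh, hx, hz⟩ := hiso i₁ hi₁S hi₁A x
      have h1 : (shift g h - h) i₁ = 0 := by
        refine hmin₀ _ (RS.sub_mem (hshift h hh g) hh) k hk ?_ i₁ hi₁A
        funext z
        change h k (g⁻¹ • z) - h k z = 0
        have h2 : g⁻¹ • z = z := by
          rw [inv_smul_eq_iff, hg1]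
        rw [h2, sub_self]
      apply hpair h hh.1 i₁ x (g • x) hx hz
      have h2 := congrFun h1 (g • x)
      change h i₁ (g⁻¹ • g • x) - h i₁ (g • x) = 0 at h2
      rw [inv_smul_smul] at h2
      linarith
    · have h1 := card_le_of_isolating hb hne i₁ k RS (fun f hf => hodd f hf.1)
        (fun f hf h0 => hmin₀ f hf k hk h0 i₁ hi₁A) (hiso i₁ hi₁S hi₁A)
      omega
  have hmin : ∀ h ∈ RS, ∀ i ∈ S, h i = 0 → h = 0 := by
    intro h hh i hi h0
    funext l
    by_cases hl : l ∈ S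
    · exact hmin₀ h hh i hi h0 l (hSA l hl)
    · exact hh.2 l hl
  have huniq : ∀ h ∈ RS, ∀ h' ∈ RS, ∀ i ∈ S, h i = h' i → h = h' := by
    intro h hh h' hh' i hi he
    rw [← sub_eq_zero]
    refine hmin _ (RS.sub_mem hh hh') i hi ?_
    rw [Pi.sub_apply, he, sub_self]
  -- the kernels are the same
  have hker : ∀ i ∈ S, ∀ k ∈ S, ∀ g : G, (∀ z : X i, g • z = z) → ∀ z : X k, g • z = z := by
    intro i hi k hk g hg x
    obtain ⟨h, hh, hx, hz⟩ := hiso k hk (hSA k hk) x
    have h1 : shift g h = h := by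
      refine huniq _ (hshift h hh g) _ hh i hi ?_
      funext z
      change h i (g⁻¹ • z) = h i z
      have h2 : g⁻¹ • z = z := by
        rw [inv_smul_eq_iff, hg]
      rw [h2]
    apply hpair h hh.1 k x (g • x) hx hz
    have h2 := congrFun (congrFun h1 k) (g • x)
    change h k (g⁻¹ • g • x) = _ at h2
    rw [inv_smul_smul] at h2
    exact h2.symm
  have hsigns : ∀ i ∈ S, ∀ k ∈ S, ∀ g : G, Signs bar i g → Signs bar k g := fun i hi k hk =>
    hcompat i (hSA i hi) k (hSA k hk) fun g => ⟨hker i hi k hk g, hker k hk i hi g⟩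
  -- the special function
  have hi₀ := hi₁S
  set i₀ := i₁ with hi₀def
  obtain ⟨x₀, -⟩ := Function.ne_iff.1 ((mem_filter.1 hi₀).2)
  obtain ⟨h, hh, hx₀, hz₀⟩ := hiso i₀ hi₀ hi₁A x₀
  have hh0 : h ≠ 0 := by
    rintro rfl
    exact hx₀ rfl
  have hex2 : ∀ k (hk : k ∈ S), ∃ y : X k, h k y ≠ 0 := by
    intro k hk
    by_contra hcon
    push Not at hcon
    exact hh0 (hmin h hh k hk (funext hcon))
  -- the functions `shift g h` for the signs `g`
  have hone : ∀ k ∈ S, ∀ y y' : X k, h k y ≠ 0 → h k y' ≠ 0 → y' = y ∨ y' = bar k y := by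
    intro k hk y y' hy hy'
    by_contra hcon
    rw [not_or] at hcon
    obtain ⟨g, hg, hgy, hgy'⟩ := hsep k (hSA k hk) y y' hcon.1 hcon.2
    have hg0 := hsigns k hk i₀ hi₀ g hg
    have hinv := inv_signs hb hc hg
    have hinv0 := inv_signs hb hc hg0
    rcases hg0 x₀ with h1 | h1
    · have h2 : shift g h = h := by
        refine huniq _ (hshift h hh g) _ hh i₀ hi₀ ?_
        funext z
        change h i₀ (g⁻¹ • z) = h i₀ z
        rw [hinv0]
        by_cases hz1 : z = x₀
        · rw [hz1, h1]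
        · by_cases hz2 : z = bar i₀ x₀
          · rw [hz2, hc, h1]
          · rcases hg0 z with h3 | h3
            · rw [h3]
            · rw [h3, hodd h hh.1, hz₀ z hz1 hz2, neg_zero]
      have h3 := congrFun (congrFun h2 k) y'
      change h k (g⁻¹ • y') = h k y' at h3
      rw [hinv, hgy', hodd h hh.1] at h3
      apply hy'
      linarith
    · have h2 : shift g h = - h := by
        refine huniq _ (hshift h hh g) _ (RS.neg_mem hh) i₀ hi₀ ?_
        funext z
        change h i₀ (g⁻¹ • z) = - h i₀ z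
        rw [hinv0]
        by_cases hz1 : z = x₀
        · rw [hz1, h1, hodd h hh.1]
        · by_cases hz2 : z = bar i₀ x₀
          · rw [hz2, hc, h1, hodd h hh.1 i₀ (bar i₀ x₀)]
          · rcases hg0 z with h3 | h3
            · rw [h3, hz₀ z hz1 hz2, neg_zero]
            · rw [h3, hodd h hh.1]
      have h3 := congrFun (congrFun h2 k) y
      change h k (g⁻¹ • y) = - h k y at h3
      rw [hinv, hgy] at h3
      apply hy
      linarith
  choose ψ hψ using hex2
  have hsuppψ : ∀ k (hk : k ∈ S) z, z ≠ ψ k hk → z ≠ bar k (ψ k hk) → h k z = 0 := by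
    intro k hk z h1 h2
    by_contra h3
    rcases hone k hk (ψ k hk) z (hψ k hk) h3 with h4 | h4
    · exact h1 h4
    · exact h2 h4
  -- an element that fixes one of the `ψ` fixes the function
  have hfix : ∀ k (hk : k ∈ S) (g : G), g • ψ k hk = ψ k hk → shift g h = h := by
    intro k hk g hg
    refine huniq _ (hshift h hh g) _ hh k hk ?_
    funext z
    change h k (g⁻¹ • z) = h k z
    have hg' : g⁻¹ • ψ k hk = ψ k hk := by
      rw [inv_smul_eq_iff, hg]
    by_cases hz1 : z = ψ k hk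
    · rw [hz1, hg']
    · by_cases hz2 : z = bar k (ψ k hk)
      · rw [hz2, hc, hg']
      · rw [hsuppψ k hk z hz1 hz2]
        apply hsuppψ k hk
        · intro h5
          apply hz1
          rw [inv_smul_eq_iff, hg] at h5
          exact h5
        · intro h5
          apply hz2
          rw [inv_smul_eq_iff, hc, hg] at h5
          exact h5
  have hstab : ∀ k (hk : k ∈ S) l (hl : l ∈ S) (g : G), g • ψ k hk = ψ k hk →
      g • ψ l hl = ψ l hl := by
    intro k hk l hl g hg
    apply hpair h hh.1 l (ψ l hl) _ (hψ l hl) (hsuppψ l hl)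
    have h2 := congrFun (congrFun (hfix k hk g hg) l) (g • ψ l hl)
    change h l (g⁻¹ • g • ψ l hl) = _ at h2
    rw [inv_smul_smul] at h2
    exact h2.symm
  apply hh0
  refine hlin S ψ hSA (fun i hi k hk g => ⟨hstab i hi k hk g, hstab k hk i hi g⟩) h hh.1 ?_
  intro i x hx
  have hi : i ∈ S := by
    by_contra hi
    apply hx
    rw [hh.2 i hi]
    rfl
  exact ⟨hi, hone i hi (ψ i hi) x (hψ i hi) hx⟩

end core

end Pool.Agent.T2H38.SS
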