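import Mathlib
import Pool.Agent.TH170.GS.Defs
import Pool.Agent.W495.FM.HomDefs

/-!
# Abelian varieties over finite fields whose Frobenius fields have separated signs: definitions
-/

set_option autoImplicit false

namespace Pool.Agent.T2H38.SS

open NumberField Module Pool.Agent.W495.TA Pool.Agent.W495.FM Pool.Agent.TH170

/-- The automorphism `σ` of the field of complex numbers maps each complex embedding of the CM field
`K` to itself or to its complex conjugate (that is, it is the identity on the images of the maximal
totally real subfield of `K`, on the Galois closure of this subfield). -/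
def IsSign (K : Type) [Field K] (σ : ℂ ≃+* ℂ) : Prop :=
  ∀ φ : K →+* ℂ, (σ : ℂ →+* ℂ).comp φ = φ ∨
    (σ : ℂ →+* ℂ).comp φ = ComplexEmbedding.conjugate φ

/-- The signs of the CM field `K` are separated: for any two complex embeddings `φ` and `ψ` of `K`
with `ψ ≠ φ` and `ψ ≠ conj φ` there is an automorphism of `ℂ` that maps each complex embedding of `K`
to itself or to its conjugate, that fixes `φ` and that maps `ψ` to its conjugate. -/
def SeparatedSigns (K : Type) [Field K] : Prop :=
  ∀ φ ψ : K →+* ℂ, ψ ≠ φ → ψ ≠ ComplexEmbedding.conjugate φ →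
    ∃ σ : ℂ ≃+* ℂ, IsSign K σ ∧ (σ : ℂ →+* ℂ).comp φ = φ ∧
      (σ : ℂ →+* ℂ).comp ψ = ComplexEmbedding.conjugate ψ

/-- The Galois closures (in the field of complex numbers) of `K` and `K'` are the same: the same
automorphisms of `ℂ` fix all their complex embeddings. -/
def SameClosure (K K' : Type) [Field K] [Field K'] : Prop :=
  ∀ σ : ℂ ≃+* ℂ, (∀ φ : K →+* ℂ, (σ : ℂ →+* ℂ).comp φ = φ) ↔
    ∀ φ : K' →+* ℂ, (σ : ℂ →+* ℂ).comp φ = φ

/-- If the Galois closures of the CM fields `K` and `K'` are the same then the Galois closures of their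
maximal totally real subfields are the same, too. -/
def Compatible (K K' : Type) [Field K] [Field K'] : Prop :=
  SameClosure K K' → ∀ σ : ℂ ≃+* ℂ, IsSign K σ ↔ IsSign K' σ

/-- The degree of `K` is larger than the degree of `E`, or the Galois closure of `K` is not contained
in the Galois closure of `E`: some automorphism of `ℂ` fixes all complex embeddings of `E`, but not
all those of `K`. -/
def Unrelated (K E : Type) [Field K] [NumberField K] [Field E] [NumberField E] : Prop :=
  finrank ℚ E < finrank ℚ K ∨
    ∃ σ : ℂ ≃+* ℂ, (∀ ψ : E →+* ℂ, (σ : ℂ →+* ℂ).comp ψ = ψ) ∧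
      ¬ ∀ φ : K →+* ℂ, (σ : ℂ →+* ℂ).comp φ = φ

/-- The functions `u i` on the complex embeddings of the fields `K i` are odd (with respect to
complex conjugation), and if embeddings `ψ i` of some of the fields `K i` (those with `i ∈ S`) in the
field of complex numbers have the same image then the functions `σ ↦ u i (σ ∘ ψ i)` (`i ∈ S`) of
the automorphisms `σ` of `ℂ` are linearly independent. So no `u i` is zero; if the fields `K i` are
pairwise not isomorphic this is the only condition. -/
structure IsSlopeFamily {I : Type} (K : I → Type) [∀ i, Field (K i)]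
    (u : ∀ i, (K i →+* ℂ) → ℝ) : Prop where
  odd : ∀ i φ, u i (ComplexEmbedding.conjugate φ) = - u i φ
  indep : ∀ (S : Set I) (ψ : ∀ i, K i →+* ℂ),
    (∀ i ∈ S, ∀ k ∈ S, (ψ i).fieldRange = (ψ k).fieldRange) →
      LinearIndepOn ℝ (fun i => fun σ : ℂ ≃+* ℂ => u i ((σ : ℂ →+* ℂ).comp (ψ i))) S

variable {p : ℕ} [Fact p.Prime] {ν : PadicAlgCl p ≃+* ℂ} {I : Type} (K : I → Type)
  [∀ i, Field (K i)] [∀ i, NumberField (K i)]

/-- The abelian variety `Z` over the field with `p ^ a` elements and a set `S` of its factors: the
fields `K i` are unrelated to the CM fields of the factors in `S`, and there is a family of slope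
functions `u i` as above such that each factor outside of `S` is supersingular or some power of its
Frobenius endomorphism, the power with exponent `s`, say, is a Weil number `x` in one of the fields
`K i` (embedded in the CM field of the factor) with the slope `s (a + u i φ) / 2` at each complex
embedding `φ` of `K i` (for the `p`-adic valuation of `ℂ` given by `ν`, with `v (p) = 1`). So the
factors outside of `S` are, over an algebraic closure of the field with `p` elements, isogenous to
powers of one abelian variety for each `i`, or supersingular. -/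
def IsMixed (Z : RedAV p ν) (S : Set Z.X.I) : Prop :=
  (∀ k ∈ S, ∀ i, Unrelated (K i) (Z.X.factor k).E) ∧
  ∃ u : ∀ i, (K i →+* ℂ) → ℝ, IsSlopeFamily K u ∧
    ∀ k ∉ S, GS.IsSupersingular p Z.a (Z.π k) ∨
      ∃ (i : I) (θ : K i →+* (Z.X.factor k).E) (x : K i) (s : ℕ), 0 < s ∧ θ x = Z.π k ^ s ∧
        ∀ φ : K i →+* ℂ, 2 * (- Real.logb p ‖ν.symm (φ x)‖) - s * Z.a = s * u i φ

open Classical in
/-- The sum of the dimensions of the factors of `Z` in the set `S` is at most five (so the sum of the
degrees of their CM fields is at most ten), and no two of them have quartic CM fields with the same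
Galois closure or CM fields of the degrees two and eight; or the factors in `S` have dimension at most
three and the Galois closures of their CM fields are pairwise different. -/
def IsSmallSet (Z : RedAV p ν) (S : Set Z.X.I) : Prop :=
  ((∑ i, if i ∈ S then finrank ℚ (Z.X.factor i).E else 0) ≤ 10 ∧
    ∀ i ∈ S, ∀ k ∈ S, i ≠ k →
      ¬ (finrank ℚ (Z.X.factor i).E = 4 ∧ finrank ℚ (Z.X.factor k).E = 4 ∧
        SameClosure (Z.X.factor i).E (Z.X.factor k).E) ∧
      ¬ (finrank ℚ (Z.X.factor i).E = 2 ∧ finrank ℚ (Z.X.factor k).E = 8)) ∨
  ((∀ i ∈ S, finrank ℚ (Z.X.factor i).E ≤ 6) ∧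
    ∀ i ∈ S, ∀ k ∈ S, i ≠ k → ¬ SameClosure (Z.X.factor i).E (Z.X.factor k).E)

/-- The abelian variety `Y` is, over an algebraic closure of the field with `p` elements, isogenous to
a product of a supersingular abelian variety and of powers of the factors of an abelian variety `Z`
as in `IsMixed`, where the set `S` of factors is small: each factor of `Y` is supersingular or (an
embedding of the CM fields takes a power of the Frobenius endomorphism of a factor of `Z` to a power of
its Frobenius endomorphism) isogenous to a power of a factor of `Z`. For example, `S` may be empty. -/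
def OfFields (Y : RedAV p ν) : Prop :=
  ∃ (Z : RedAV p ν) (S : Set Z.X.I), IsSmallSet Z S ∧ IsMixed K Z S ∧
    ∀ i : Y.X.I, GS.IsSupersingular p Y.a (Y.π i) ∨
      ∃ (k : Z.X.I) (ι : (Z.X.factor k).E →+* (Y.X.factor i).E) (s t : ℕ), 0 < s ∧ 0 < t ∧
        Y.a * s = Z.a * t ∧ (Y.π i) ^ s = ι ((Z.π k) ^ t)

/-- The groups of motivic and of `ℓ`-adic homology of `X` are those of an abelian variety `Y` as in
`OfFields`. -/
def IsAbelianOfFields (ν : PadicAlgCl p ≃+* ℂ) {Ω V : Type} [Field Ω]
    [CharZero Ω] (T : Homology Ω V) (X : V) : Prop :=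
  ∃ (Y : RedAV p ν) (C : Cycles Ω Y) (D : Motivic C) (g : ℕ), OfFields K Y ∧ IsChow C ∧
    IsMotivic D ∧ IsAbelian T X D g

/-- Criteria for CM fields `K` and `K'`. The signs of `K` are separated if the degree of `K` is twice
a prime number and some automorphism of `ℂ` maps each complex embedding of `K` to itself or to its
conjugate, fixes one of them and does not fix another one (that is, the Galois closure of `K` is not
the compositum of a totally real field and an imaginary quadratic field), or if the degree of `K` is
two. The fields `K` and `K'` are compatible if their degrees are twice odd numbers. -/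
def Criteria : Prop :=
  ∀ (K K' : Type) [Field K] [NumberField K] [IsCMField K] [Field K'] [NumberField K']
    [IsCMField K'],
    (∀ q : ℕ, q.Prime → finrank ℚ K = 2 * q →
      (∃ σ : ℂ ≃+* ℂ, IsSign K σ ∧ ∃ φ ψ : K →+* ℂ, (σ : ℂ →+* ℂ).comp φ = φ ∧
        (σ : ℂ →+* ℂ).comp ψ ≠ ψ) → SeparatedSigns K) ∧
    (finrank ℚ K = 2 → SeparatedSigns K) ∧
    (∀ g g' : ℕ, Odd g → Odd g' → finrank ℚ K = 2 * g → finrank ℚ K' = 2 * g' →
      Compatible K K')

end Pool.Agent.T2H38.SS
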