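import Mathlib
import Pool.Agent.T2H38.SS.Core

/-!
# Sets with an odd number of pairs, and sets with a prime number of pairs
-/

set_option autoImplicit false
set_option linter.unusedSectionVars false
set_option linter.unusedVariables false

namespace Pool.Agent.T2H38.SS

open Finset
open scoped Pointwise

section odd

variable {G : Type} [Group G] {Y : Type} [Fintype Y] [MulAction G Y]

/-- A normal subgroup whose squares operate trivially on a transitive set with an odd number of pairs
stable under the group operates by signs. -/
theorem signs_of_odd (b : Y → Y) (hb : ∀ x, b (b x) = x) (hne : ∀ x, b x ≠ x)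
    (hc : ∀ (g : G) x, g • b x = b (g • x)) (ht : ∀ x y : Y, ∃ g : G, g • x = y)
    {n : ℕ} (hn : Odd n) (hcard : Fintype.card Y = 2 * n) (M : Set G)
    (h1 : (1 : G) ∈ M) (hmul : ∀ g ∈ M, ∀ h ∈ M, g * h ∈ M) (hinv : ∀ g ∈ M, g⁻¹ ∈ M)
    (hnorm : ∀ g ∈ M, ∀ h : G, h⁻¹ * g * h ∈ M) (hsq : ∀ g ∈ M, ∀ z : Y, g • g • z = z) :
    ∀ g ∈ M, ∀ z : Y, g • z = z ∨ g • z = b z := by
  classical
  let r : Setoid Y :=
    { r := fun x y => y = x ∨ y = b x
      iseqv :=
        { refl := fun x => Or.inl rfl
          symm := by
            rintro x y (h | h)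
            · exact Or.inl h.symm
            · right
              rw [h, hb]
          trans := by
            rintro x y z (h | h) (h' | h')
            · left
              rw [h', h]
            · right
              rw [h', h]
            · right
              rw [h', h]
            · left
              rw [h', h, hb] } }
  have hr : ∀ x y : Y, r x y ↔ (y = x ∨ y = b x) := fun x y => Iff.rfl
  let _ : Fintype (Quotient r) := Fintype.ofFinite _
  let H : Subgroup G :=
    { carrier := M
      mul_mem' := fun ha hb => hmul _ ha _ hb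
      one_mem' := h1
      inv_mem' := fun ha => hinv _ ha }
  have hact : ∀ (g : G) (x y : Y), r x y → r (g • x) (g • y) := by
    intro g x y h
    rcases (hr x y).1 h with h | h
    · exact (hr _ _).2 (Or.inl (by rw [h]))
    · exact (hr _ _).2 (Or.inr (by rw [h, hc]))
  let _ : MulAction G (Quotient r) :=
    { smul := fun g => Quotient.map (fun x => g • x) (fun x y h => hact g x y h)
      one_smul := by
        intro q
        induction q using Quotient.inductionOn with
        | h x =>
          change Quotient.mk r ((1 : G) • x) = _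
          rw [one_smul]
      mul_smul := by
        intro g g' q
        induction q using Quotient.inductionOn with
        | h x =>
          change Quotient.mk r ((g * g') • x) = Quotient.mk r (g • g' • x)
          rw [mul_smul] }
  have hsmul : ∀ (g : G) (x : Y), g • (Quotient.mk r x) = Quotient.mk r (g • x) := fun g x => rfl
  -- the number of pairs
  have hq : Nat.card (Quotient r) = n := by
    have e1 : Fintype.card Y = ∑ q : Quotient r, (univ.filter fun y : Y => Quotient.mk r y = q).card := by
      rw [← card_univ]
      exact card_eq_sum_card_fiberwise fun y _ => mem_univ _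
    have e2 : ∀ q : Quotient r, (univ.filter fun y : Y => Quotient.mk r y = q).card = 2 := by
      intro q
      induction q using Quotient.inductionOn with
      | h x =>
        have : (univ.filter fun y : Y => Quotient.mk r y = Quotient.mk r x) = {x, b x} := by
          ext y
          rw [mem_filter, mem_insert, mem_singleton, Quotient.eq]
          constructor
          · rintro ⟨-, h⟩
            exact (hr x y).1 (Setoid.symm' r h)
          · intro h
            exact ⟨mem_univ _, Setoid.symm' r ((hr x y).2 h)⟩
        rw [this, card_pair (hne x).symm]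
    rw [sum_congr rfl fun q _ => e2 q, sum_const, smul_eq_mul, hcard] at e1
    rw [Nat.card_eq_fintype_card, ← card_univ]
    omega
  -- the image of the subgroup in the group of permutations
  let φ : G →* Equiv.Perm (Quotient r) := MulAction.toPermHom G (Quotient r)
  let P : Subgroup (Equiv.Perm (Quotient r)) := H.map φ
  have hP : IsPGroup 2 P := by
    rintro ⟨s, g, hg, rfl⟩
    refine ⟨1, ?_⟩
    rw [pow_one]
    apply Subtype.ext
    rw [Subgroup.coe_pow, Subgroup.coe_one]
    change φ g ^ 2 = 1
    rw [← map_pow]
    ext q
    induction q using Quotient.inductionOn with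
    | h x =>
      change (g ^ 2) • Quotient.mk r x = Quotient.mk r x
      rw [hsmul, pow_two, mul_smul, hsq g hg]
  have hnd : ¬ 2 ∣ Nat.card (Quotient r) := by
    rw [hq]
    exact hn.not_two_dvd_nat
  obtain ⟨q, hq⟩ := hP.nonempty_fixed_point_of_prime_not_dvd_card (Quotient r) hnd
  obtain ⟨x, rfl⟩ := Quotient.exists_rep q
  have hx : ∀ g ∈ M, Quotient.mk r (g • x) = Quotient.mk r x := by
    intro g hg
    have h2 := hq ⟨φ g, g, hg, rfl⟩
    exact h2
  intro g hg z
  obtain ⟨k, rfl⟩ := ht x z
  have h3 := hx _ (hnorm g hg k)
  have h4 : Quotient.mk r (g • k • x) = Quotient.mk r (k • x) := by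
    have h5 := congrArg (fun q => k • q) h3
    beta_reduce at h5
    rw [hsmul, hsmul, mul_smul, mul_smul, smul_inv_smul] at h5
    exact h5
  have h6 := Quotient.exact h4
  exact (hr _ _).1 (Setoid.symm' r h6)

end odd

section prime

variable {G : Type} [Group G] {Y : Type} [Fintype Y] [MulAction G Y]

/-- If the number of pairs is prime then the signs are separated, unless the group of all signs is
generated by the involution. -/
theorem sep_of_prime (b : Y → Y) (hb : ∀ x, b (b x) = x) (hne : ∀ x, b x ≠ x)
    (hc : ∀ (g : G) x, g • b x = b (g • x)) (ht : ∀ x y : Y, ∃ g : G, g • x = y)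
    {q : ℕ} (hq : q.Prime) (hcard : Fintype.card Y = 2 * q) (c : G) (hcb : ∀ x : Y, c • x = b x)
    (hex : ∃ g : G, (∀ z : Y, g • z = z ∨ g • z = b z) ∧ ∃ x y : Y, g • x = x ∧ g • y ≠ y)
    (x y : Y) (hyx : y ≠ x) (hyb : y ≠ b x) :
    ∃ g : G, (∀ z : Y, g • z = z ∨ g • z = b z) ∧ g • x = x ∧ g • y = b y := by
  classical
  let M : Set G := {g | ∀ z : Y, g • z = z ∨ g • z = b z}
  have hMn : ∀ g ∈ M, ∀ h : G, h⁻¹ * g * h ∈ M := by
    intro g hg h z
    rw [mul_smul, mul_smul]
    rcases hg (h • z) with h1 | h1
    · left
      rw [h1, inv_smul_smul]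
    · right
      rw [h1, hc, inv_smul_smul]
  have hMc : ∀ g ∈ M, c * g ∈ M := by
    intro g hg z
    rw [mul_smul, hcb]
    rcases hg z with h1 | h1
    · right
      rw [h1]
    · left
      rw [h1, hb]
  have : MulAction.IsPretransitive G Y := ⟨ht⟩
  -- the elements with the same signs
  let B : Y → Set Y := fun x => {y | ∀ g ∈ M, g • x = x ↔ g • y = y}
  have hBg : ∀ (g : G) (x : Y), g • B x = B (g • x) := by
    intro g x
    ext y
    rw [Set.mem_smul_set_iff_inv_smul_mem]
    constructor
    · intro h k hk
      have h1 := h _ (hMn k hk g)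
      rw [mul_smul, mul_smul, mul_smul, mul_smul, smul_inv_smul, inv_smul_eq_iff,
        inv_smul_eq_iff, smul_inv_smul] at h1
      exact h1
    · intro h k hk
      have h1 := h (g * k * g⁻¹) (by
        have := hMn k hk g⁻¹
        rwa [inv_inv] at this)
      rw [mul_smul, mul_smul, mul_smul, mul_smul, inv_smul_smul, smul_left_cancel_iff] at h1
      rw [h1]
      constructor
      · intro h2
        have h3 := congrArg (fun z => g⁻¹ • z) h2
        beta_reduce at h3
        rwa [inv_smul_smul] at h3
      · intro h2
        rw [h2, smul_inv_smul]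
  have hBeq : ∀ x y : Y, y ∈ B x → B y = B x := by
    intro x y h
    ext z
    constructor
    · intro h1 g hg
      rw [h g hg]
      exact h1 g hg
    · intro h1 g hg
      rw [← h g hg]
      exact h1 g hg
  have hblock : MulAction.IsBlock G (B x) := by
    rw [MulAction.isBlock_iff_smul_eq_of_mem]
    intro g a ha hga
    rw [hBg]
    have h1 := hBeq _ _ ha
    have h2 := hBeq _ _ hga
    rw [← hBg] at h2
    rw [← hBg, ← h1]
    rw [h2, h1]
  have hx : x ∈ B x := fun g _ => Iff.rfl
  have hbx : ∀ y ∈ B x, b y ∈ B x := by
    intro y hy g hg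
    rw [hy g hg, hc]
    constructor
    · intro h
      rw [h]
    · intro h
      rw [← hb (g • y), h, hb]
  have hdvd : (B x).ncard ∣ 2 * q := by
    have h1 := hblock.ncard_dvd_card ⟨x, hx⟩
    rwa [Nat.card_eq_fintype_card, hcard] at h1
  have heven : 2 ∣ (B x).ncard := by
    have h0 : (B x).ncard = (B x).toFinset.card := by
      rw [Set.ncard_eq_toFinset_card']
    rw [h0]
    have h1 : ∑ a ∈ (B x).toFinset, (1 : ZMod 2) = 0 := by
      refine Finset.sum_involution (fun a _ => b a) ?_ ?_ ?_ ?_
      · intro a _
        decide
      · intro a _ _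
        exact hne a
      · intro a ha
        rw [Set.mem_toFinset] at ha ⊢
        exact hbx a ha
      · intro a _
        exact hb a
    rw [sum_const, nsmul_eq_mul, mul_one, ZMod.natCast_eq_zero_iff] at h1
    exact h1
  obtain ⟨m, hm⟩ := heven
  rw [hm] at hdvd
  have hmq : m ∣ q := Nat.dvd_of_mul_dvd_mul_left two_pos hdvd
  rcases (Nat.dvd_prime hq).1 hmq with h1 | h1
  · -- the signs are separated
    rw [h1, mul_one] at hm
    have h2 : ({x, b x} : Set Y) = B x := by
      apply Set.eq_of_subset_of_ncard_le
      · rintro z (rfl | rfl)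
        · exact hx
        · exact hbx _ hx
      · rw [hm, Set.ncard_pair (hne x).symm]
      · exact Set.toFinite _
    have h3 : y ∉ B x := by
      rw [← h2]
      rintro (h | h)
      · exact hyx h
      · exact hyb h
    have h4 : ∃ g ∈ M, ¬ (g • x = x ↔ g • y = y) := by
      by_contra hcon
      push Not at hcon
      exact h3 hcon
    obtain ⟨g, hg, hxy⟩ := h4
    by_cases h5 : g • x = x
    · have h6 : g • y ≠ y := fun h => hxy ⟨fun _ => h, fun _ => h5⟩
      exact ⟨g, hg, h5, (hg y).resolve_left h6⟩
    · have h6 : g • y = y := by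
        by_contra h
        exact hxy ⟨fun h' => absurd h' h5, fun h' => absurd h' h⟩
      refine ⟨c * g, hMc g hg, ?_, ?_⟩
      · rw [mul_smul, (hg x).resolve_left h5, hcb, hb]
      · rw [mul_smul, h6, hcb]
  · exfalso
    have h2 : B x = Set.univ := by
      apply Set.eq_of_subset_of_ncard_le (Set.subset_univ _)
      rw [hm, h1, Set.ncard_univ, Nat.card_eq_fintype_card, hcard]
    obtain ⟨g, hg, z, w, hz, hw⟩ := hex
    have h3 : z ∈ B x := by
      rw [h2]
      trivial
    have h4 : w ∈ B x := by
      rw [h2]
      trivial
    exact hw ((h4 g hg).1 ((h3 g hg).2 hz))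

end prime

end Pool.Agent.T2H38.SS
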