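import Mathlib
import Pool.Agent.TH170.GS.Rel
import Pool.Agent.T2H38.SS.Defs
import Pool.Agent.T2H38.SS.Core
import Pool.Agent.T2H38.SS.Odd

/-!
# CM fields with separated signs
-/

set_option autoImplicit false
set_option linter.unusedSectionVars false
set_option linter.unusedVariables false

namespace Pool.Agent.T2H38.SS

open NumberField Finset Module Pool.Agent.H204R3.CM Pool.Agent.H977R3.CM Pool.Agent.TH170
  Pool.Agent.TH170.MF Pool.Agent.TH170.QC

/-- The operation of the automorphisms of `ℂ` on the complex embeddings. -/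
abbrev embAction (K : Type) [Field K] : MulAction (ℂ ≃+* ℂ) (K →+* ℂ) where
  smul σ φ := (σ : ℂ →+* ℂ).comp φ
  one_smul φ := by
    ext x
    rfl
  mul_smul σ τ φ := by
    ext x
    rfl

section one

variable (K : Type) [Field K] [NumberField K]

/-- The automorphisms of `ℂ` operate transitively on the embeddings of a number field. -/
theorem exists_comp (φ ψ : K →+* ℂ) : ∃ σ : ℂ ≃+* ℂ, (σ : ℂ →+* ℂ).comp φ = ψ := by
  obtain ⟨L, _, _, j, hj⟩ := exists_galois fun _ : Unit => K
  obtain ⟨φ', rfl⟩ := hj () φ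
  obtain ⟨ψ', rfl⟩ := hj () ψ
  obtain ⟨g, hg⟩ := MulAction.exists_smul_eq (L ≃ₐ[ℚ] L) φ' ψ'
  obtain ⟨σ, hσ⟩ := exists_aut j (g : L ≃+* L)
  refine ⟨σ, ?_⟩
  ext x
  change σ (j (φ' x)) = j (ψ' x)
  rw [hσ, ← hg]
  rfl

end one

section two

variable {K K' : Type} [Field K] [NumberField K] [Field K'] [NumberField K']

/-- If all automorphisms that fix an embedding `φ` fix `ψ` then the image of `ψ` is contained in the
image of `φ`. -/
theorem range_le (φ : K →+* ℂ) (ψ : K' →+* ℂ)
    (h : ∀ σ : ℂ ≃+* ℂ, (σ : ℂ →+* ℂ).comp φ = φ → (σ : ℂ →+* ℂ).comp ψ = ψ) :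
    ψ.fieldRange ≤ φ.fieldRange := by
  let E : Bool → Type := fun b => if b then K else K'
  let _ : ∀ b, Field (E b) := fun b => by
    cases b
    · exact (inferInstance : Field K')
    · exact (inferInstance : Field K)
  have _ : ∀ b, NumberField (E b) := fun b => by
    cases b
    · exact (inferInstance : NumberField K')
    · exact (inferInstance : NumberField K)
  obtain ⟨L, _, _, j, hj⟩ := exists_galois E
  obtain ⟨φ', hφ'⟩ : ∃ φ' : K →+* L, j.comp φ' = φ := hj true φ
  obtain ⟨ψ', hψ'⟩ : ∃ ψ' : K' →+* L, j.comp ψ' = ψ := hj false ψ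
  rintro y ⟨x, rfl⟩
  let φa : K →ₐ[ℚ] L := RingHom.equivRatAlgHom K L φ'
  have h1 : ψ' x ∈ φa.fieldRange := by
    rw [← IsGalois.fixedField_fixingSubgroup φa.fieldRange]
    rintro ⟨g, hg⟩
    obtain ⟨σ, hσ⟩ := exists_aut j (g : L ≃+* L)
    have h2 : (σ : ℂ →+* ℂ).comp φ = φ := by
      ext y
      rw [← hφ']
      change σ (j (φ' y)) = j (φ' y)
      rw [hσ]
      congr 1
      exact hg ⟨φ' y, y, rfl⟩
    have h3 := RingHom.congr_fun (h σ h2) x
    rw [← hψ'] at h3
    change σ (j (ψ' x)) = j (ψ' x) at h3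
    rw [hσ] at h3
    exact j.injective h3
  obtain ⟨z, hz⟩ := h1
  refine ⟨z, ?_⟩
  rw [← hφ', ← hψ']
  change j (φ' z) = j (ψ' x)
  congr 1

end two

section crit

variable (K : Type) [Field K] [NumberField K] [IsCMField K]

theorem card_emb {g : ℕ} (hg : finrank ℚ K = 2 * g) : Fintype.card (K →+* ℂ) = 2 * g := by
  rw [← hg]
  exact Embeddings.card K ℂ

/-- **The signs are separated** if half of the degree of the CM field is a prime number and there is a
sign other than the identity and the complex conjugation. -/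
theorem separated_of_prime {q : ℕ} (hq : q.Prime) (hK : finrank ℚ K = 2 * q)
    (hex : ∃ σ : ℂ ≃+* ℂ, IsSign K σ ∧ ∃ φ ψ : K →+* ℂ, (σ : ℂ →+* ℂ).comp φ = φ ∧
      (σ : ℂ →+* ℂ).comp ψ ≠ ψ) : SeparatedSigns K := by
  classical
  let _ := embAction K
  intro φ ψ h1 h2
  obtain ⟨σ, hσ, a, b, ha, hb⟩ := hex
  have hc : ∀ φ : K →+* ℂ, (starRingAut : RingAut ℂ) • φ = ComplexEmbedding.conjugate φ := by
    intro φ
    ext x
    rfl
  exact sep_of_prime (G := ℂ ≃+* ℂ) (Y := K →+* ℂ) (fun φ => ComplexEmbedding.conjugate φ) conj_conj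
    conj_ne (fun g φ => comp_conj g φ) (exists_comp K) hq (card_emb K hK) starRingAut hc
    ⟨σ, hσ, a, b, ha, hb⟩ φ ψ h1 h2

/-- The signs of imaginary quadratic fields are separated. -/
theorem separated_of_quadratic (hK : finrank ℚ K = 2) : SeparatedSigns K := by
  classical
  intro φ ψ h1 h2
  exfalso
  have h3 : ({φ, ComplexEmbedding.conjugate φ, ψ} : Finset (K →+* ℂ)).card = 3 := by
    rw [card_insert_of_notMem, card_pair (Ne.symm h2)]
    simp only [mem_insert, mem_singleton, not_or]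
    exact ⟨fun h => conj_ne φ h.symm, Ne.symm h1⟩
  have h4 := card_le_univ ({φ, ComplexEmbedding.conjugate φ, ψ} : Finset (K →+* ℂ))
  rw [h3, card_emb K (g := 1) (by rw [hK])] at h4
  omega

variable {K} {K' : Type} [Field K'] [NumberField K'] [IsCMField K']

theorem isSign_of_odd {g : ℕ} (hg : Odd g) (hK' : finrank ℚ K' = 2 * g) (h : SameClosure K K')
    (σ : ℂ ≃+* ℂ) (hσ : IsSign K σ) : IsSign K' σ := by
  classical
  let _ := embAction K'
  let _ := embAction K
  have hact : ∀ (σ : ℂ ≃+* ℂ) (φ : K →+* ℂ), σ • φ = (σ : ℂ →+* ℂ).comp φ := fun _ _ => rfl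
  have hcc : ∀ (σ : ℂ ≃+* ℂ) (φ : K →+* ℂ), σ • ComplexEmbedding.conjugate φ =
    ComplexEmbedding.conjugate (σ • φ) := fun σ φ => comp_conj σ φ
  refine signs_of_odd (G := ℂ ≃+* ℂ) (Y := K' →+* ℂ) (fun φ => ComplexEmbedding.conjugate φ)
    conj_conj conj_ne (fun g φ => comp_conj g φ) (exists_comp K') hg (card_emb K' hK')
    {σ | IsSign K σ} ?_ ?_ ?_ ?_ ?_ σ hσ
  · intro φ
    left
    ext x
    rfl
  · intro a ha b hb φ
    have e : (((a * b : ℂ ≃+* ℂ)) : ℂ →+* ℂ).comp φ = a • b • φ := by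
      ext x
      rfl
    rw [e]
    rcases hb φ with h1 | h1
    · rw [← hact] at h1
      rw [h1]
      exact ha φ
    · rw [← hact] at h1
      rw [h1, hcc]
      rcases ha φ with h2 | h2
      · rw [← hact] at h2
        right
        rw [h2]
      · rw [← hact] at h2
        left
        rw [h2, conj_conj]
  · intro a ha φ
    change a⁻¹ • φ = φ ∨ a⁻¹ • φ = _
    rcases ha φ with h1 | h1
    · left
      rw [inv_smul_eq_iff, hact, h1]
    · right
      rw [inv_smul_eq_iff, hcc, hact, h1, conj_conj]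
  · intro a ha b φ
    have e : (((b⁻¹ * a * b : ℂ ≃+* ℂ)) : ℂ →+* ℂ).comp φ = b⁻¹ • a • b • φ := by
      ext x
      rfl
    rw [e]
    rcases ha (b • φ) with h1 | h1
    · left
      rw [← hact] at h1
      rw [h1, inv_smul_smul]
    · right
      rw [← hact] at h1
      rw [h1, hcc, inv_smul_smul]
  · intro a ha φ
    have h1 : ∀ ψ : K →+* ℂ, ((a * a : ℂ ≃+* ℂ) : ℂ →+* ℂ).comp ψ = ψ := by
      intro ψ
      have e : (((a * a : ℂ ≃+* ℂ)) : ℂ →+* ℂ).comp ψ = a • a • ψ := by
        ext x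
        rfl
      rw [e]
      rcases ha ψ with h2 | h2
      · rw [← hact] at h2
        rw [h2, h2]
      · rw [← hact] at h2
        rw [h2, hcc, h2, conj_conj]
    have h2 := (h (a * a)).1 h1 φ
    exact h2

/-- **CM fields whose degrees are twice odd numbers are compatible.** -/
theorem compatible_of_odd {g g' : ℕ} (hg : Odd g) (hg' : Odd g') (hK : finrank ℚ K = 2 * g)
    (hK' : finrank ℚ K' = 2 * g') : Compatible K K' := fun h σ =>
  ⟨isSign_of_odd hg' hK' h σ, isSign_of_odd hg hK (fun σ => (h σ).symm) σ⟩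

end crit

end Pool.Agent.T2H38.SS
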