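import Mathlib
import Pool.Agent.T2H38.SS.Field
import Pool.Agent.T2H38.SS.Core2

/-!
# The relations between the Frobenius eigenvalues of abelian varieties whose Frobenius fields have
separated signs
-/

set_option autoImplicit false
set_option linter.unusedSectionVars false
set_option linter.unusedVariables false

namespace Pool.Agent.T2H38.SS

open NumberField Finset Module Pool.Agent.H204R3.CM Pool.Agent.H977R3.CM Pool.Agent.TH170
  Pool.Agent.TH170.MF Pool.Agent.TH170.QC Pool.Agent.TH170.GS Pool.Agent.W495.TA Pool.Agent.TH117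

section rel

variable {I : Type} [Fintype I] {K : I → Type} [∀ i, Field (K i)]
  [∀ i, NumberField (K i)] [∀ i, IsCMField (K i)]

/-- The odd relations between the slope functions are trivial. -/
theorem trivial_rel (A : Set I) (hsep : ∀ i ∈ A, SeparatedSigns (K i))
    (hcomp : ∀ i ∈ A, ∀ k ∈ A, Compatible (K i) (K k))
    (hdec : ∀ i ∈ A, ∀ k ∉ A, Unrelated (K i) (K k))
    {u : ∀ i, (K i →+* ℂ) → ℝ} (hodd : ∀ i φ, u i (ComplexEmbedding.conjugate φ) = - u i φ)
    (hindep : ∀ (S : Set I), S ⊆ A → ∀ (ψ : ∀ i, K i →+* ℂ),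
      (∀ i ∈ S, ∀ k ∈ S, (ψ i).fieldRange = (ψ k).fieldRange) →
        LinearIndepOn ℝ (fun i => fun σ : ℂ ≃+* ℂ => u i ((σ : ℂ →+* ℂ).comp (ψ i))) S)
    (c : ∀ i, (K i →+* ℂ) → ℝ) (hc : ∀ i φ, c i (ComplexEmbedding.conjugate φ) = - c i φ)
    (hrel : ∀ σ : ℂ ≃+* ℂ, ∑ i, ∑ φ : K i →+* ℂ, c i φ * u i ((σ : ℂ →+* ℂ).comp φ) = 0)
    (i : I) (hiA : i ∈ A) (φ : K i →+* ℂ) : c i φ = 0 := by
  classical
  let _ : ∀ i, MulAction (ℂ ≃+* ℂ) (K i →+* ℂ) := fun i => embAction (K i)
  have hact : ∀ i (σ : ℂ ≃+* ℂ) (φ : K i →+* ℂ), σ • φ = (σ : ℂ →+* ℂ).comp φ := fun _ _ _ => rfl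
  let R : Submodule ℝ (∀ i, (K i →+* ℂ) → ℝ) :=
    { carrier := {f | (∀ i φ, f i (ComplexEmbedding.conjugate φ) = - f i φ) ∧
        ∀ σ : ℂ ≃+* ℂ, ∑ i, ∑ φ : K i →+* ℂ, f i φ * u i ((σ : ℂ →+* ℂ).comp φ) = 0}
      add_mem' := by
        rintro a b ⟨ha, ha'⟩ ⟨hb, hb'⟩
        refine ⟨fun i φ => ?_, fun σ => ?_⟩
        · change a i _ + b i _ = - (a i φ + b i φ)
          rw [ha, hb]
          ring
        · rw [← add_zero (0 : ℝ)]
          nth_rewrite 1 [← ha' σ]
          rw [← hb' σ, ← sum_add_distrib]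
          refine sum_congr rfl fun i _ => ?_
          rw [← sum_add_distrib]
          refine sum_congr rfl fun φ _ => ?_
          change (a i φ + b i φ) * _ = _
          ring
      zero_mem' := by
        refine ⟨fun i φ => ?_, fun σ => ?_⟩
        · change (0 : ℝ) = - 0
          ring
        · refine sum_eq_zero fun i _ => sum_eq_zero fun φ _ => ?_
          change (0 : ℝ) * _ = 0
          ring
      smul_mem' := by
        rintro r a ⟨ha, ha'⟩
        refine ⟨fun i φ => ?_, fun σ => ?_⟩
        · change r * a i _ = - (r * a i φ)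
          rw [ha]
          ring
        · rw [← mul_zero r, ← ha' σ, mul_sum]
          refine sum_congr rfl fun i _ => ?_
          rw [mul_sum]
          refine sum_congr rfl fun φ _ => ?_
          change (r * a i φ) * _ = _
          ring }
  have key := core2 (G := ℂ ≃+* ℂ) (X := fun i => (K i →+* ℂ))
    (bar := fun i φ => ComplexEmbedding.conjugate φ) A (fun i => conj_conj) (fun i => conj_ne)
    (fun i g φ => comp_conj g φ) (fun i => exists_comp (K i)) (fun i hi => hsep i hi)
    (fun i hi k hk => ?_)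
    (fun i hi k hk h g hg => (hcomp i hi k hk h g).1 hg) R (fun f hf => hf.1) ?_ ?_ c
    ⟨hc, hrel⟩ i hiA
  · rw [key]
    rfl
  · rcases hdec i hi k hk with h | ⟨σ, h1, h2⟩
    · right
      have e1 : Fintype.card (K k →+* ℂ) = finrank ℚ (K k) := Embeddings.card (K k) ℂ
      have e2 : Fintype.card (K i →+* ℂ) = finrank ℚ (K i) := Embeddings.card (K i) ℂ
      rw [e1, e2]
      exact h
    · left
      exact ⟨σ, h1, h2⟩
  · -- stability
    rintro f ⟨hf, hf'⟩ g
    refine ⟨fun i φ => ?_, fun σ => ?_⟩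
    · change f i (g⁻¹ • ComplexEmbedding.conjugate φ) = - f i (g⁻¹ • φ)
      rw [← hf, hact, hact, comp_conj]
    · rw [← hf' (σ * g)]
      refine sum_congr rfl fun i _ => ?_
      refine Fintype.sum_equiv (MulAction.toPerm (g⁻¹ : ℂ ≃+* ℂ) : Equiv.Perm (K i →+* ℂ)) _ _
        fun φ => ?_
      rw [MulAction.toPerm_apply]
      change f i (g⁻¹ • φ) * u i (σ • φ) = f i (g⁻¹ • φ) * u i ((σ * g) • g⁻¹ • φ)
      rw [mul_smul, smul_inv_smul]
  · -- independence
    rintro S ψ hSA hstab f ⟨hf, hf'⟩ hsupp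
    have hψ : ∀ i, ∃ ψ' : K i →+* ℂ, ∀ hi : i ∈ S, ψ' = ψ i hi := by
      intro i
      by_cases hi : i ∈ S
      · exact ⟨ψ i hi, fun _ => rfl⟩
      · have : Nonempty (K i →+* ℂ) := inferInstance
        exact ⟨this.some, fun h => absurd h hi⟩
    choose ψ' hψ' using hψ
    have hrange : ∀ i ∈ (S : Set I), ∀ k ∈ (S : Set I), (ψ' i).fieldRange = (ψ' k).fieldRange := by
      intro i hi k hk
      apply le_antisymm
      · refine range_le _ _ fun σ h => ?_
        rw [hψ' i hi]
        rw [hψ' k hk] at h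
        exact (hstab k hk i hi σ).1 h
      · refine range_le _ _ fun σ h => ?_
        rw [hψ' k hk]
        rw [hψ' i hi] at h
        exact (hstab i hi k hk σ).1 h
    have hlin := hindep (S : Set I) (fun i hi => hSA i hi) ψ' hrange
    -- the relation
    have h1 : ∀ σ : ℂ ≃+* ℂ, ∑ i ∈ S, f i (ψ' i) * u i ((σ : ℂ →+* ℂ).comp (ψ' i)) = 0 := by
      intro σ
      have h2 : ∀ i, ∑ φ : K i →+* ℂ, f i φ * u i ((σ : ℂ →+* ℂ).comp φ) =
          if i ∈ S then 2 * (f i (ψ' i) * u i ((σ : ℂ →+* ℂ).comp (ψ' i))) else 0 := by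
        intro i
        split_ifs with hi
        · have h3 : ∑ φ ∈ {ψ' i, ComplexEmbedding.conjugate (ψ' i)},
              f i φ * u i ((σ : ℂ →+* ℂ).comp φ) =
              ∑ φ : K i →+* ℂ, f i φ * u i ((σ : ℂ →+* ℂ).comp φ) := by
            apply sum_subset (subset_univ _)
            intro φ _ hφ
            have h4 : f i φ = 0 := by
              by_contra h5
              obtain ⟨h6, h7⟩ := hsupp i φ h5
              rw [← hψ' i h6] at h7
              rw [mem_insert, mem_singleton] at hφ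
              exact hφ h7
            rw [h4, zero_mul]
          rw [← h3, sum_pair (fun h => conj_ne _ h.symm), hf, comp_conj, hodd]
          ring
        · refine sum_eq_zero fun φ _ => ?_
          have h4 : f i φ = 0 := by
            by_contra h5
            exact hi (hsupp i φ h5).1
          rw [h4, zero_mul]
      have h3 := hf' σ
      rw [sum_congr rfl fun i _ => h2 i, ← sum_filter, filter_mem_eq_inter, univ_inter,
        ← mul_sum] at h3
      exact (mul_eq_zero.1 h3).resolve_left two_ne_zero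
    have h2 : ∀ i ∈ S, f i (ψ' i) = 0 := by
      rw [linearIndepOn_finset_iff] at hlin
      apply hlin
      funext σ
      rw [Finset.sum_apply]
      exact h1 σ
    funext i φ
    change f i φ = 0
    by_contra h5
    obtain ⟨h6, h7⟩ := hsupp i φ h5
    rw [← hψ' i h6] at h7
    rcases h7 with h7 | h7
    · rw [h7, h2 i h6] at h5
      exact h5 rfl
    · rw [h7, hf, h2 i h6] at h5
      exact h5 neg_zero

end rel

section comb

/-- Symmetric exponents belong to the group generated by pairs. -/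
theorem mem_of_symm' {B X : Type} [Fintype B] [DecidableEq B] [Fintype X] [DecidableEq X]
    (H : AddSubgroup (B → ℤ)) (F : B → Option X) (inv : X → X) (hinv : ∀ z, inv (inv z) = z)
    (hfix : ∀ z, inv z ≠ z) (e : B → ℤ)
    (hN : ∀ w, F w = none → e w ≠ 0 → (Pi.single w 1 : B → ℤ) ∈ H)
    (hH : ∀ w w' z, F w = some z → F w' = some (inv z) →
      (Pi.single w 1 + Pi.single w' 1 : B → ℤ) ∈ H)
    (hF : ∀ w z, F w = some z → ∃ w', F w' = some (inv z))
    (he : ∀ z, ∑ w, (if F w = some z then e w else 0) =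
      ∑ w, (if F w = some (inv z) then e w else 0)) :
    e ∈ H := by
  classical
  let e' : B → ℤ := fun w => if F w = none then 0 else e w
  let e'' : B → ℤ := fun w => if F w = none then e w else 0
  have hsum : e = e' + e'' := by
    funext w
    simp only [e', e'', Pi.add_apply]
    split_ifs <;> simp
  rw [hsum]
  refine H.add_mem ?_ ?_
  · let H' : AddSubgroup (B → ℤ) := H ⊔ AddSubgroup.closure {x | ∃ w, F w = none ∧ x = Pi.single w 1}
    -- the projection to the other coordinates
    let P : (B → ℤ) →+ (B → ℤ) :=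
      { toFun := fun x w => if F w = none then 0 else x w
        map_zero' := by
          funext w
          simp
        map_add' := fun x y => by
          funext w
          simp only [Pi.add_apply]
          split_ifs <;> simp }
    have hsingle : ∀ w z, F w = some z → P (Pi.single w 1) = Pi.single w 1 := by
      intro w z hw
      funext v
      change (if F v = none then 0 else (Pi.single w 1 : B → ℤ) v) = _
      split_ifs with hv
      · rw [Pi.single_eq_of_ne]
        rintro rfl
        rw [hw] at hv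
        exact absurd hv (by simp)
      · rfl
    let H₀ : AddSubgroup (B → ℤ) := AddSubgroup.comap P H
    have h1 : e' ∈ H₀ := by
      refine mem_of_symm H₀ F inv hinv hfix ?_ ?_ hF e' ?_
      · intro w hw
        change P (Pi.single w 1) ∈ H
        have : P (Pi.single w 1) = 0 := by
          funext v
          change (if F v = none then 0 else (Pi.single w 1 : B → ℤ) v) = 0
          split_ifs with hv
          · rfl
          · rw [Pi.single_eq_of_ne]
            rintro rfl
            exact hv hw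
        rw [this]
        exact H.zero_mem
      · intro w w' z hw hw'
        change P (Pi.single w 1 + Pi.single w' 1) ∈ H
        rw [map_add, hsingle w z hw, hsingle w' _ hw']
        exact hH w w' z hw hw'
      · intro z
        have h2 : ∀ (z : X) w, (if F w = some z then e' w else 0) =
            if F w = some z then e w else 0 := by
          intro z w
          by_cases h : F w = some z
          · rw [if_pos h, if_pos h]
            simp only [e']
            rw [if_neg]
            rw [h]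
            simp
          · rw [if_neg h, if_neg h]
        rw [sum_congr rfl fun w _ => h2 z w, sum_congr rfl fun w _ => h2 (inv z) w]
        exact he z
    have h2 : P e' = e' := by
      funext v
      change (if F v = none then 0 else e' v) = e' v
      split_ifs with hv
      · simp only [e']
        rw [if_pos hv]
      · rfl
    rw [← h2]
    exact h1
  · have h3 : e'' = ∑ w, e'' w • (Pi.single w 1 : B → ℤ) := by
      funext v
      rw [Finset.sum_apply, sum_eq_single v]
      · rw [Pi.smul_apply, Pi.single_eq_same, smul_eq_mul, mul_one]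
      · intro w _ hw
        rw [Pi.smul_apply, Pi.single_eq_of_ne (Ne.symm hw), smul_zero]
      · intro h
        exact absurd (mem_univ _) h
    rw [h3]
    refine H.sum_mem fun w _ => ?_
    by_cases hw : e'' w = 0
    · rw [hw, zero_smul]
      exact H.zero_mem
    · have h4 : F w = none := by
        by_contra h
        apply hw
        exact if_neg h
      refine H.zsmul_mem (hN w h4 ?_) _
      simp only [e''] at hw
      rw [if_pos h4] at hw
      exact hw

end comb

section main

variable {p : ℕ} [Fact p.Prime] {ν : PadicAlgCl p ≃+* ℂ}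

/-- The slopes of conjugate eigenvalues. -/
theorem dev_conjE (Z : RedAV p ν) (σ : ℂ ≃+* ℂ) (w : BL.Emb Z) :
    dev Z σ (conjE w) = - dev Z σ w := by
  have hp1 : (1 : ℝ) < p := by exact_mod_cast (Fact.out : p.Prime).one_lt
  have h1 : BL.eig Z w * BL.eig Z (conjE w) = (p : ℂ) ^ Z.a := by
    change w.2 (Z.π w.1) * ComplexEmbedding.conjugate w.2 (Z.π w.1) = _
    rw [ComplexEmbedding.conjugate_coe_eq, Complex.mul_conj, Complex.normSq_eq_norm_sq,
      (Z.frob w.1).weil w.2]
    push_cast
    rfl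
  have h2 := congrArg (fun y => Real.logb p ‖ν.symm (σ y)‖) h1
  simp only [map_mul, map_pow, map_natCast, norm_mul, norm_pow] at h2
  have hN0 : ∀ w : BL.Emb Z, ‖ν.symm (σ (BL.eig Z w))‖ ≠ 0 := by
    intro w h
    rw [norm_eq_zero, map_eq_zero, map_eq_zero] at h
    exact eig_ne_zero w h
  have hNp : ‖(p : PadicAlgCl p)‖ = (p : ℝ)⁻¹ := by
    have h2 : (p : PadicAlgCl p) = ((p : ℚ_[p]) : PadicAlgCl p) := by
      rw [map_natCast]
    rw [h2, PadicAlgCl.norm_extends, Padic.norm_p]
  rw [Real.logb_mul (hN0 _) (hN0 _), Real.logb_pow, hNp, Real.logb_inv,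
    Real.logb_self_eq_one hp1] at h2
  unfold dev
  linarith

/-- Relations between the slopes are relations between the eigenvalues. -/
theorem isRel_of_sum_dev {Z : RedAV p ν} {e : BL.Emb Z → ℕ}
    (h : ∀ σ : ℂ ≃+* ℂ, ∑ w, (e w : ℝ) * dev Z σ w = 0) : BL.IsRel Z e := by
  classical
  by_cases hne : Nonempty Z.X.I
  · obtain ⟨L, _, _, _, _, j, hj⟩ := Pool.Agent.W547.KB.exists_cm Z.X
    have hbij := BL.toEmb_bijective (j := j) (Z := Z) hj
    let E : Pool.Agent.W547.KB.Wt Z.X L ≃ BL.Emb Z := Equiv.ofBijective _ hbij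
    let _ : Fintype (Pool.Agent.W547.KB.Wt Z.X L) := Fintype.ofEquiv _ E.symm
    refine (BL.isRel_iff (Z := Z) (j := j) hj _).2 fun g => ?_
    obtain ⟨σ, hσ⟩ := exists_aut j (g : L ≃+* L)
    have hp1 : (1 : ℝ) < p := by exact_mod_cast (Fact.out : p.Prime).one_lt
    have hNp : ‖(p : PadicAlgCl p)‖ = (p : ℝ)⁻¹ := by
      have h2 : (p : PadicAlgCl p) = ((p : ℚ_[p]) : PadicAlgCl p) := by
        rw [map_natCast]
      rw [h2, PadicAlgCl.norm_extends, Padic.norm_p]
    have key : ∀ v : Pool.Agent.W547.KB.Wt Z.X L,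
        (Nat.card (W495.TA.Dec p ν j) : ℝ) * dev Z σ (BL.toEmb j Z v) =
          Z.a * ((BL.tw p ν j Z.X v g : ℤ) : ℝ) := by
      intro v
      have h1 := BL.norm_pow_two_card (Z := Z) (j := j) hj v g
      have hlp : Real.log p ≠ 0 := (Real.log_pos hp1).ne'
      have h2 := congrArg (fun x => Real.log x / Real.log p) h1
      beta_reduce at h2
      rw [Real.log_zpow, Real.log_zpow, hNp, Real.log_inv, mul_div_assoc, mul_div_assoc,
        neg_div, div_self hlp] at h2
      change _ * Real.logb p _ = _ at h2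
      have h3 : ν.symm (σ (BL.eig Z (BL.toEmb j Z v))) = ν.symm (j (g (v.2 (Z.π v.1)))) :=
        congrArg ν.symm (hσ (v.2 (Z.π v.1)))
      unfold dev
      rw [h3]
      push_cast at h2
      linarith
    have ha : (Z.a : ℝ) ≠ 0 := Nat.cast_ne_zero.2 Z.pos.ne'
    have h4 := congrArg (fun x => (Nat.card (W495.TA.Dec p ν j) : ℝ) * x) (h σ)
    beta_reduce at h4
    rw [mul_zero, mul_sum, ← Equiv.sum_comp E] at h4
    have h5 : ∀ v : Pool.Agent.W547.KB.Wt Z.X L,
        (Nat.card (W495.TA.Dec p ν j) : ℝ) * ((e (E v) : ℝ) * dev Z σ (E v)) =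
          Z.a * (((e (BL.toEmb j Z v) : ℤ) * BL.tw p ν j Z.X v g : ℤ) : ℝ) := by
      intro v
      change (Nat.card (W495.TA.Dec p ν j) : ℝ) *
        ((e (BL.toEmb j Z v) : ℝ) * dev Z σ (BL.toEmb j Z v)) = _
      rw [mul_left_comm, key]
      push_cast
      ring
    rw [sum_congr rfl fun v _ => h5 v, ← mul_sum] at h4
    have h6 := (mul_eq_zero.1 h4).resolve_left ha
    exact_mod_cast h6
  · have : IsEmpty (BL.Emb Z) := ⟨fun w => hne ⟨w.1⟩⟩
    exact ⟨1, one_pos, by simp⟩

variable {I : Type} [Fintype I] {K : I → Type}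
  [∀ i, Field (K i)] [∀ i, NumberField (K i)] [∀ i, IsCMField (K i)]

/-- All relations between the Frobenius eigenvalues of an abelian variety whose Frobenius fields have
separated signs (or belong to factors in a good set unrelated to the other fields) are
elementary. -/
theorem elementary_of_mixed (hsep : ∀ i, SeparatedSigns (K i))
    (hcomp : ∀ i k, Compatible (K i) (K k)) {Y : RedAV p ν} {G : Set Y.X.I}
    (hG : BL.IsGoodSet Y G) (hY : IsMixed K Y G) : BL.HasElementaryRelations Y := by
  classical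
  intro e he
  obtain ⟨hun, u, hu, hY⟩ := hY
  let S : Y.X.I → Prop := fun k =>
    ∃ s : ℕ, 0 < s ∧ Y.π k ^ (2 * s) = ((p : (Y.X.factor k).E) ^ Y.a) ^ s
  have hY' : ∀ k, ¬ (k ∈ G ∨ S k) → ∃ (i : I) (θ : K i →+* (Y.X.factor k).E) (x : K i) (s : ℕ),
      0 < s ∧ θ x = Y.π k ^ s ∧ ∀ φ : K i →+* ℂ,
        2 * (- Real.logb p ‖ν.symm (φ x)‖) - s * Y.a = s * u i φ := fun k hk =>
    (hY k fun h => hk (Or.inl h)).resolve_left fun h => hk (Or.inr h)
  choose t θ x s hs hθ hsl using hY'
  let X : Type := Σ i, (K i →+* ℂ)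
  let inv : X → X := fun z => ⟨z.1, ComplexEmbedding.conjugate z.2⟩
  have hinv : ∀ z, inv (inv z) = z := by
    rintro ⟨i, φ⟩
    simp only [inv, conj_conj]
  let F : BL.Emb Y → Option X := fun w =>
    if h : w.1 ∈ G ∨ S w.1 then none else some ⟨t w.1 h, w.2.comp (θ w.1 h)⟩
  have hF1 : ∀ w, (w.1 ∈ G ∨ S w.1) → F w = none := fun w h => dif_pos h
  have hF2 : ∀ w (h : ¬ (w.1 ∈ G ∨ S w.1)), F w = some ⟨t w.1 h, w.2.comp (θ w.1 h)⟩ :=
    fun w h => dif_neg h
  have hFn : ∀ w, F w = none → w.1 ∈ G ∨ S w.1 := by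
    intro w hw
    by_contra h
    rw [hF2 w h] at hw
    exact absurd hw (by simp)
  have hFc : ∀ w z, F w = some z → F (conjE w) = some (inv z) := by
    intro w z hz
    by_cases h : w.1 ∈ G ∨ S w.1
    · rw [hF1 w h] at hz
      exact absurd hz (by simp)
    · rw [hF2 w h] at hz
      rw [← Option.some.inj hz, hF2 (conjE w) h]
      rfl
  -- the slopes
  have hdevS : ∀ w : BL.Emb Y, S w.1 → ∀ σ, dev Y σ w = 0 := by
    intro w h σ
    have h1 := sum_dev_of_isRel (isRel_single w h) σ
    rw [sum_eq_single w] at h1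
    · rwa [Pi.single_eq_same, Nat.cast_one, one_mul] at h1
    · intro v _ hv
      rw [Pi.single_eq_of_ne hv, Nat.cast_zero, zero_mul]
    · intro h
      exact absurd (mem_univ _) h
  have hdev : ∀ w z, F w = some z → ∀ σ : ℂ ≃+* ℂ,
      dev Y σ w = u z.1 ((σ : ℂ →+* ℂ).comp z.2) := by
    intro w z hz σ
    by_cases h : w.1 ∈ G ∨ S w.1
    · rw [hF1 w h] at hz
      exact absurd hz (by simp)
    · rw [hF2 w h] at hz
      rw [← Option.some.inj hz]
      have h1 := hsl w.1 h ((σ : ℂ →+* ℂ).comp (w.2.comp (θ w.1 h)))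
      have h2 : ((σ : ℂ →+* ℂ).comp (w.2.comp (θ w.1 h))) (x w.1 h) =
          σ (BL.eig Y w) ^ s w.1 h := by
        change σ (w.2 (θ w.1 h (x w.1 h))) = _
        rw [hθ, map_pow, map_pow]
        rfl
      rw [h2, map_pow, norm_pow, Real.logb_pow] at h1
      have hs0 : (s w.1 h : ℝ) ≠ 0 := Nat.cast_ne_zero.2 (hs w.1 h).ne'
      apply mul_left_cancel₀ hs0
      have h3 : (s w.1 h : ℝ) * dev Y σ w =
          2 * (-(s w.1 h * Real.logb p ‖ν.symm (σ (BL.eig Y w))‖)) - s w.1 h * Y.a := by
        unfold dev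
        ring
      rw [h3, h1]
  -- the antisymmetric exponents
  let a : ∀ i, (K i →+* ℂ) → ℝ := fun i φ =>
    ∑ w : BL.Emb Y, (e w : ℝ) * ((if F w = some ⟨i, φ⟩ then 1 else 0) -
      (if F w = some ⟨i, ComplexEmbedding.conjugate φ⟩ then 1 else 0))
  have ha : ∀ i φ, a i (ComplexEmbedding.conjugate φ) = - a i φ := by
    intro i φ
    simp only [a]
    rw [conj_conj, ← sum_neg_distrib]
    exact sum_congr rfl fun w _ => by ring
  let eN : BL.Emb Y → ℝ := fun w => if w.1 ∈ G then (e w : ℝ) else 0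
  have hsplit : ∀ σ : ℂ ≃+* ℂ, ∑ i, ∑ φ : K i →+* ℂ, a i φ * u i ((σ : ℂ →+* ℂ).comp φ) +
      2 * ∑ w, eN w * dev Y σ w = 2 * ∑ w, (e w : ℝ) * dev Y σ w := by
    intro σ
    have h1 : ∑ i, ∑ φ : K i →+* ℂ, a i φ * u i ((σ : ℂ →+* ℂ).comp φ) =
        ∑ z : X, ∑ w : BL.Emb Y, (e w : ℝ) * (((if F w = some z then 1 else 0) -
          (if F w = some (inv z) then 1 else 0)) * u z.1 ((σ : ℂ →+* ℂ).comp z.2)) := by
      rw [← Finset.univ_sigma_univ, Finset.sum_sigma]
      refine sum_congr rfl fun i _ => sum_congr rfl fun φ _ => ?_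
      simp only [a]
      rw [sum_mul]
      refine sum_congr rfl fun w _ => ?_
      simp only [inv]
      ring
    rw [h1, sum_comm, mul_sum, mul_sum, ← sum_add_distrib]
    refine sum_congr rfl fun w _ => ?_
    rw [← mul_sum]
    rcases hw : F w with _ | z
    · rcases hFn w hw with h2 | h2
      · simp only [eN]
        rw [if_pos h2]
        simp
      · rw [hdevS w h2]
        simp
    · have h3 : ∀ z' : X, (((if some z = some z' then (1 : ℝ) else 0) -
          (if some z = some (inv z') then 1 else 0)) * u z'.1 ((σ : ℂ →+* ℂ).comp z'.2)) =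
          (if z = z' then u z'.1 ((σ : ℂ →+* ℂ).comp z'.2) else 0) -
            (if inv z = z' then u z'.1 ((σ : ℂ →+* ℂ).comp z'.2) else 0) := by
        intro z'
        have h4 : (z = inv z') ↔ (inv z = z') :=
          ⟨fun h => by rw [h, hinv], fun h => by rw [← h, hinv]⟩
        simp only [Option.some_inj, h4]
        split_ifs <;> ring
      rw [sum_congr rfl fun z' _ => h3 z', sum_sub_distrib, sum_ite_eq univ z,
        sum_ite_eq univ (inv z), if_pos (mem_univ _), if_pos (mem_univ _), hdev w z hw σ]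
      have h5 : u (inv z).1 ((σ : ℂ →+* ℂ).comp (inv z).2) =
          - u z.1 ((σ : ℂ →+* ℂ).comp z.2) := by
        change u z.1 ((σ : ℂ →+* ℂ).comp (ComplexEmbedding.conjugate z.2)) = _
        rw [QC.comp_conj, hu.odd]
      have h6 : eN w = 0 := by
        simp only [eN]
        rw [if_neg]
        intro h
        rw [hF1 w (Or.inl h)] at hw
        exact absurd hw (by simp)
      rw [h5, h6]
      ring
  -- the blocks
  let J : Type := I ⊕ {k : Y.X.I // k ∈ G}
  let E : J → Type := Sum.elim K fun k => (Y.X.factor k.1).E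
  let _ : ∀ b, Field (E b) := fun b => match b with
    | Sum.inl i => (inferInstance : Field (K i))
    | Sum.inr k => (inferInstance : Field (Y.X.factor k.1).E)
  have _ : ∀ b, NumberField (E b) := fun b => match b with
    | Sum.inl i => (inferInstance : NumberField (K i))
    | Sum.inr k => (inferInstance : NumberField (Y.X.factor k.1).E)
  have _ : ∀ b, IsCMField (E b) := fun b => match b with
    | Sum.inl i => (inferInstance : IsCMField (K i))
    | Sum.inr k => (inferInstance : IsCMField (Y.X.factor k.1).E)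
  let uu : ∀ b, (E b →+* ℂ) → ℝ := fun b => match b with
    | Sum.inl i => u i
    | Sum.inr k => fun φ => dev Y (RingEquiv.refl ℂ) ⟨k.1, φ⟩
  let cc : ∀ b, (E b →+* ℂ) → ℝ := fun b => match b with
    | Sum.inl i => a i
    | Sum.inr k => fun φ => (e ⟨k.1, φ⟩ : ℝ) - e ⟨k.1, ComplexEmbedding.conjugate φ⟩
  have h0 : ∀ i φ, a i φ = 0 := by
    intro i φ
    refine trivial_rel (K := E) {b | ∃ i, b = Sum.inl i} ?_ ?_ ?_ (u := uu) ?_ ?_ cc ?_ ?_
      (Sum.inl i) ⟨i, rfl⟩ φ
    · rintro _ ⟨i, rfl⟩
      exact hsep i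
    · rintro _ ⟨i, rfl⟩ _ ⟨k, rfl⟩
      exact hcomp i k
    · rintro _ ⟨i, rfl⟩ (k | k) hk
      · exact absurd ⟨k, rfl⟩ hk
      · exact hun k.1 k.2 i
    · rintro (i | k) φ
      · exact hu.odd i φ
      · exact dev_conjE Y (RingEquiv.refl ℂ) ⟨k.1, φ⟩
    · intro T hT ψ hψ
      have h1 := hu.indep {i | Sum.inl i ∈ T} (fun i => ψ (Sum.inl i))
        (fun i hi k hk => hψ _ hi _ hk)
      have h2 : T = Sum.inl '' {i | Sum.inl i ∈ T} := by
        ext b
        constructor
        · intro hb
          obtain ⟨i, rfl⟩ := hT hb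
          exact ⟨i, hb, rfl⟩
        · rintro ⟨i, hi, rfl⟩
          exact hi
      rw [h2]
      exact LinearIndepOn.image_of_comp Sum.inl _ h1
    · rintro (i | k) φ
      · exact ha i φ
      · have h1 : ∀ φ : (Y.X.factor k.1).E →+* ℂ,
            (e ⟨k.1, ComplexEmbedding.conjugate φ⟩ : ℝ) -
            e ⟨k.1, ComplexEmbedding.conjugate (ComplexEmbedding.conjugate φ)⟩ =
            - ((e ⟨k.1, φ⟩ : ℝ) - e ⟨k.1, ComplexEmbedding.conjugate φ⟩) := by
          intro φ
          rw [conj_conj]
          ring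
        exact h1 φ
    · intro σ
      rw [Fintype.sum_sum_type]
      have h1 : ∀ k : {k : Y.X.I // k ∈ G}, ∑ φ : (Y.X.factor k.1).E →+* ℂ,
          ((e ⟨k.1, φ⟩ : ℝ) - e ⟨k.1, ComplexEmbedding.conjugate φ⟩) * dev Y σ ⟨k.1, φ⟩ =
            2 * ∑ φ : (Y.X.factor k.1).E →+* ℂ, (e ⟨k.1, φ⟩ : ℝ) * dev Y σ ⟨k.1, φ⟩ := by
        intro k
        simp only [sub_mul, sum_sub_distrib]
        have h2 : ∑ φ : (Y.X.factor k.1).E →+* ℂ,
            (e ⟨k.1, ComplexEmbedding.conjugate φ⟩ : ℝ) * dev Y σ ⟨k.1, φ⟩ =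
            - ∑ φ : (Y.X.factor k.1).E →+* ℂ, (e ⟨k.1, φ⟩ : ℝ) * dev Y σ ⟨k.1, φ⟩ := by
          rw [← sum_neg_distrib]
          refine Fintype.sum_equiv ⟨fun φ => ComplexEmbedding.conjugate φ,
            fun φ => ComplexEmbedding.conjugate φ, conj_conj, conj_conj⟩ _ _ fun φ => ?_
          have h3 := dev_conjE Y σ ⟨k.1, φ⟩
          change dev Y σ ⟨k.1, ComplexEmbedding.conjugate φ⟩ = _ at h3
          change _ = - ((e ⟨k.1, ComplexEmbedding.conjugate φ⟩ : ℝ) *
            dev Y σ ⟨k.1, ComplexEmbedding.conjugate φ⟩)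
          rw [h3]
          ring
        rw [h2]
        ring
      have h2 : ∑ w, eN w * dev Y σ w = ∑ k : {k : Y.X.I // k ∈ G},
          ∑ φ : (Y.X.factor k.1).E →+* ℂ, (e ⟨k.1, φ⟩ : ℝ) * dev Y σ ⟨k.1, φ⟩ := by
        rw [← Finset.univ_sigma_univ, Finset.sum_sigma]
        have h3 : ∀ k : Y.X.I, ∑ φ : (Y.X.factor k).E →+* ℂ, eN ⟨k, φ⟩ * dev Y σ ⟨k, φ⟩ =
            if k ∈ G then ∑ φ : (Y.X.factor k).E →+* ℂ, (e ⟨k, φ⟩ : ℝ) * dev Y σ ⟨k, φ⟩
              else 0 := by
          intro k
          simp only [eN]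
          split_ifs with hk
          · rfl
          · simp
        rw [sum_congr rfl fun k _ => h3 k, ← sum_filter]
        exact (sum_subtype (univ.filter fun k => k ∈ G) (fun k => by simp) _)
      have h3 := hsplit σ
      rw [h2, mul_sum, sum_dev_of_isRel he, mul_zero] at h3
      rw [← h3]
      congr 1
      exact sum_congr rfl fun k _ => h1 k
  -- the part of the relation that belongs to the good set
  let eG : BL.Emb Y → ℕ := fun w => if w.1 ∈ G then e w else 0
  let eX : BL.Emb Y → ℤ := fun w => if w.1 ∈ G then 0 else e w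
  have heG : BL.IsRel Y eG := by
    refine isRel_of_sum_dev fun σ => ?_
    have h1 := hsplit σ
    rw [sum_dev_of_isRel he, mul_zero] at h1
    have h2 : ∑ i, ∑ φ : K i →+* ℂ, a i φ * u i ((σ : ℂ →+* ℂ).comp φ) = 0 :=
      sum_eq_zero fun i _ => sum_eq_zero fun φ _ => by rw [h0, zero_mul]
    rw [h2, zero_add] at h1
    have h3 := (mul_eq_zero.1 h1).resolve_left two_ne_zero
    rw [← h3]
    refine sum_congr rfl fun w _ => ?_
    congr 1
    simp only [eG, eN]
    split_ifs <;> simp
  have hsum : (fun w => (e w : ℤ)) = eX + fun w => (eG w : ℤ) := by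
    funext w
    simp only [eX, eG, Pi.add_apply]
    split_ifs <;> simp
  rw [hsum]
  refine AddSubgroup.add_mem _ ?_ ?_
  · refine mem_of_symm' _ F inv hinv ?_ eX ?_ ?_ ?_ ?_
    · rintro ⟨i, φ⟩ h
      exact conj_ne φ (eq_of_heq (Sigma.mk.inj h).2)
    · intro w hw hw0
      apply single_mem
      refine (hFn w hw).resolve_left fun h => ?_
      simp only [eX] at hw0
      exact hw0 (if_pos h)
    · intro w w' z hz hz'
      refine pair_mem w w' fun σ => ?_
      rw [hdev w z hz, hdev w' (inv z) hz']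
      have h5 : u (inv z).1 ((σ : ℂ →+* ℂ).comp (inv z).2) =
          - u z.1 ((σ : ℂ →+* ℂ).comp z.2) := by
        change u z.1 ((σ : ℂ →+* ℂ).comp (ComplexEmbedding.conjugate z.2)) = _
        rw [QC.comp_conj, hu.odd]
      rw [h5]
      ring
    · intro w z hz
      exact ⟨conjE w, hFc w z hz⟩
    · have hX : ∀ (z : X) w, (if F w = some z then eX w else 0) =
          if F w = some z then (e w : ℤ) else 0 := by
        intro z w
        by_cases h : F w = some z
        · rw [if_pos h, if_pos h]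
          simp only [eX]
          rw [if_neg]
          intro h'
          rw [hF1 w (Or.inl h')] at h
          exact absurd h (by simp)
        · rw [if_neg h, if_neg h]
      rintro ⟨i, φ⟩
      rw [sum_congr rfl fun w _ => hX _ w, sum_congr rfl fun w _ => hX _ w]
      have h1 := h0 i φ
      simp only [a, mul_sub, mul_ite, mul_one, mul_zero, sum_sub_distrib] at h1
      have h2 := sub_eq_zero.1 h1
      have h3 : ((∑ w, (if F w = some ⟨i, φ⟩ then (e w : ℤ) else 0) : ℤ) : ℝ) =
          ((∑ w, (if F w = some (inv ⟨i, φ⟩) then (e w : ℤ) else 0) : ℤ) : ℝ) := by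
        push_cast
        exact h2
      exact_mod_cast h3
  · refine AddSubgroup.subset_closure ⟨eG, heG, Or.inr (Or.inl ⟨G, hG, fun w hw => ?_⟩),
      fun w => rfl⟩
    by_contra h
    apply hw
    exact if_neg h

end main

end Pool.Agent.T2H38.SS
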