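import Mathlib
import Pool.Agent.TH117.GN.Main
import Pool.Agent.T2H38.SS.Rel

/-!
# Schemes over finite fields generated by abelian varieties whose Frobenius fields have separated signs
-/

set_option autoImplicit false

namespace Pool.Agent.T2H38.SS

open NumberField Pool.Agent.W495.TA Pool.Agent.W495.FM Pool.Agent.TH117 Pool.Agent.TH117.GN

variable {p : ℕ} [Fact p.Prime] {ν : PadicAlgCl p ≃+* ℂ} {I : Type} [Fintype I] {K : I → Type}
  [∀ i, Field (K i)] [∀ i, NumberField (K i)] [∀ i, IsCMField (K i)]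

theorem criteria : Criteria := fun K K' _ _ _ _ _ _ =>
  ⟨fun _ hq hK hex => separated_of_prime K hq hK hex, fun hK => separated_of_quadratic K hK,
    fun _ _ hg hg' hK hK' => compatible_of_odd hg hg' hK hK'⟩

/-- Fields with the same normal closure have the same closure. -/
theorem sameClosure_of_eq (K K' : Type) [Field K] [NumberField K] [Field K'] [NumberField K']
    (h : IntermediateField.normalClosure ℚ K ℂ = IntermediateField.normalClosure ℚ K' ℂ) :
    SameClosure K K' := by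
  have key : ∀ (E : Type) [Field E] [NumberField E] (σ : ℂ ≃+* ℂ),
      (∀ φ : E →+* ℂ, (σ : ℂ →+* ℂ).comp φ = φ) ↔
        ∀ x ∈ IntermediateField.normalClosure ℚ E ℂ, σ x = x := by
    intro E _ _ σ
    let A : ℂ ≃ₐ[ℚ] ℂ := AlgEquiv.ofRingEquiv (f := σ) fun x => by
      rw [eq_ratCast, map_ratCast]
    let F : IntermediateField ℚ ℂ := IntermediateField.fixedField (Subgroup.zpowers A)
    have hF : ∀ x : ℂ, x ∈ F ↔ σ x = x := by
      intro x
      constructor
      · intro hx
        exact hx ⟨A, Subgroup.mem_zpowers A⟩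
      · rintro hx ⟨g, hg⟩
        have h1 : A ∈ MulAction.stabilizer (ℂ ≃ₐ[ℚ] ℂ) x := hx
        have h2 : Subgroup.zpowers A ≤ MulAction.stabilizer (ℂ ≃ₐ[ℚ] ℂ) x := by
          rw [Subgroup.zpowers_le]
          exact h1
        exact h2 hg
    constructor
    · intro hσ
      have h1 : IntermediateField.normalClosure ℚ E ℂ ≤ F := by
        refine iSup_le fun f => ?_
        rintro y ⟨x, rfl⟩
        rw [hF]
        exact RingHom.congr_fun (hσ (f : E →+* ℂ)) x
      exact fun x hx => (hF x).1 (h1 hx)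
    · intro hσ φ
      ext x
      let f : E →ₐ[ℚ] ℂ := RingHom.equivRatAlgHom E ℂ φ
      exact hσ _ (AlgHom.fieldRange_le_normalClosure f ⟨x, rfl⟩)
  intro σ
  rw [key K σ, key K' σ, h]

theorem isGoodSet {Z : RedAV p ν} {S : Set Z.X.I} (h : IsSmallSet Z S) : BL.IsGoodSet Z S := by
  rcases h with ⟨h1, h2⟩ | ⟨h1, h2⟩
  · refine Or.inl ⟨h1, fun i hi k hk hik hexc => ?_⟩
    rcases hexc.1 with ⟨e1, e2, -, -, e3⟩ | h3
    · exact (h2 i hi k hk hik).1 ⟨e1, e2, sameClosure_of_eq _ _ e3⟩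
    · exact (h2 i hi k hk hik).2 h3
  · refine Or.inr ⟨h1, fun i hi k hk he => ?_⟩
    by_cases hik : i = k
    · subst hik
      exact Or.inr (Or.inr (Or.inr ⟨RingEquiv.refl _, 1, one_pos, rfl⟩))
    · exact absurd (sameClosure_of_eq _ _ he) (h2 i hi k hk hik)

theorem exists_elementary (hsep : ∀ i, SeparatedSigns (K i))
    (hcomp : ∀ i k, Compatible (K i) (K k)) {Y : RedAV p ν} (hY : OfFields K Y) :
    ∃ Z : RedAV p ν, BL.HasElementaryRelations Z ∧ BL.IsPowersTimesSupersingular Z Y := by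
  obtain ⟨Z, S, h1, h2, h3⟩ := hY
  exact ⟨Z, elementary_of_mixed hsep hcomp (isGoodSet h1) h2, h3⟩

theorem tb_fields (hsep : ∀ i, SeparatedSigns (K i)) (hcomp : ∀ i k, Compatible (K i) (K k))
    {Ω V : Type} [Field Ω] [IsAlgClosed Ω] [CharZero Ω] {T : Homology Ω V} (hT : IsHomology T)
    {X : V} (hX : Generated T (IsAbelianOfFields K ν T) X) : TB T X := by
  refine tb_generated hT (fun X hX => ?_) hX
  obtain ⟨Y, C, D, g, h1, hC, hD, hX⟩ := hX
  obtain ⟨Z, h2, h3⟩ := exists_elementary hsep hcomp h1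
  exact tb_abelian hT hC (tateHolds_elem h2 h3 hC) hD hX

end Pool.Agent.T2H38.SS
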